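import Pool.Agent.Y481.DR.Defs
import Pool.Agent.Y472.J.Defs2
import Pool.Agent.TH563.UV.Dblb

/-!
# Rings of trees: expansions to all orders, absolute constants, the axis.  Statements

The decorated version of `Pool.Agent.Y472.J` (and of `Pool.Agent.Y482.Ph`, `Pool.Agent.Y472.H`):
the vertex function `Ea` is multiplied by the functions of the children, as in
`Pool.Agent.Y481.DR.Defs`.
-/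

set_option autoImplicit false

namespace Pool.Agent.Y481.DX

open Finset Filter Topology Metric
open Pool.Agent.W711.HT hiding XX
open Pool.Agent.Y472
open Pool.Agent.Y481 (itI itN Sep cw)
open Pool.Agent.Y481.DR
open Pool.Agent.TH563.UV (Tb op XX PB AB kb)
open Pool.Agent.W719.AR (Fl kp)
open Pool.Agent.W719.AX (UX EXY)
open Pool.Agent.Y482.Ph (EXL GXc nearS KXD3 kx3 S_LOCN S_ELX S_WX S_CHIX S_AXX)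
open Pool.Agent.H550R3.Jones (crossP crossN gen rep tail)
open scoped Real

/-! ### The functions of the children with expansions -/

/-- `DG` with the expansion `Y_N = e^(N F) (A_0 + A_1 / N + …)` -/
structure DGX (R₀ B : ℝ) (Y : ℕ → ℂ → ℂ) (F : ℂ → ℂ) (A : ℕ → ℂ → ℂ) : Prop where
  dg : DG R₀ B Y F
  ux : UX (fun N ψ => Complex.exp (-(N * F ψ)) * Y N ψ) A (Rc R₀ R₀)
  an : ∀ k, DifferentiableOn ℂ (A k) (Rc R₀ R₀)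
  nz : ∃ c₁ : ℝ, 0 < c₁ ∧ ∀ ψ ∈ Rc R₀ R₀, c₁ ≤ ‖A 0 ψ‖

/-- TRUX: the functions of the trees -/
def S_TRUX : Prop := ∃ (ρ τ κ c : ℝ) (s dl : ℂ → ℂ → ℂ), KD ρ τ κ c s dl ∧ ∃ K : ℝ, 0 < K ∧
  ∀ D : ℕ, ∃ R₀ B₀ : ℝ, 0 < R₀ ∧ R₀ ≤ τ ∧ 0 < B₀ ∧ ∀ t : Tb, t.Below K → t.nc ≤ D →
    ∃ (F : ℂ → ℂ) (A : ℕ → ℂ → ℂ),
      DGX R₀ B₀ (fun N ψ => XX t N ψ * ((N : ℂ) ^ (2 * t.ne) * (-1) ^ (N * t.ne) *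
        Complex.exp (-(N * F 0)))) (fun ψ => F ψ - F 0) A ∧
      ∀ ψ ∈ Rc ρ τ, ∃ p : PB, p.shape = t ∧ p.rz = ψ ∧ p.Crt s ρ τ ∧ p.vl s = F ψ ∧
        HasDerivAt F (p.gs s) ψ

/-! ### Exact formulas with phases -/

/-- the sum of all weights -/
def wsl (ts : List (Tb × Tb)) : ℤ := (ts.map fun p => p.1.ws + p.2.ws).sum

/-- the number of circles -/
def nbl (ts : List (Tb × Tb)) : ℕ := (ts.map fun p => p.1.nb + p.2.nb).sum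

/-- the factor of the exact formula -/
noncomputable def pzD (N : ℕ) (ts : List (Tb × Tb)) (m : ℤ) : ℂ :=
  vN N ^ (4 * m) * (-1) ^ ts.length * kp N ^ wsl ts * kb N ^ nbl ts *
    ((-1) ^ (N - 1) * (Complex.I * N ^ 2 / (2 * π))) ^ nel ts

/-- EXDX: the exact formula -/
def S_EXDX : Prop := ∀ (N : ℕ) (ts : List (Tb × Tb)) (m : ℤ), 2 ≤ N → ts ≠ [] → NoC ts →
  JD ts m N (vN N) = pzD N ts m * ES N (tvl ts) m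

/-- MIRDX: mirror images -/
def S_MIRDX : Prop := ∀ (N : ℕ) (ts : List (Tb × Tb)) (m : ℤ), 2 ≤ N → ts ≠ [] → NoC ts →
  JD (ts.map fun p => (Pool.Agent.TH563.UV.ngb p.1, Pool.Agent.TH563.UV.ngb p.2)) (-m) N (vN N) =
    kb N ^ (2 * nbl ts) * (starRingEnd ℂ) (JD ts m N (vN N))

/-- the quantum trace over all three strands of the ring of trees: the ring together with its
axis -/
noncomputable def JA (ts : List (Tb × Tb)) (m : ℤ) (N : ℕ) (v : ℂ) : ℂ :=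
  (rep (crossP N v) (crossN N v) 3 (ftw m) * opD N v ts).trace

/-- the sum in the exact formula for the ring with its axis -/
noncomputable def EA (N : ℕ) (ls : List (Vx × Vx)) (m : ℤ) : ℂ :=
  ∑ p ∈ range N, Ea (2 * m) N (2 * π * p / N) * TV N ls (2 * π * p / N)

/-- AXPD: the exact formula for the ring with its axis (at the root of unity the invariant of the
ring with its axis is the trace of the operator, up to a factor of modulus one; compare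
`Pool.Agent.Y482.Ph.S_AXP`) -/
def S_AXPD : Prop := ∀ (N : ℕ) (ts : List (Tb × Tb)) (m : ℤ), 2 ≤ N → ts ≠ [] → NoC ts →
  JA ts m N (vN N) = N * pzD N ts m * EA N (tvl ts) m

/-- SCA: `EA` is multilinear -/
def S_SCA : Prop := ∀ (N : ℕ) (ls : List (Vx × Vx)) (e : List ((ℕ → ℂ) × (ℕ → ℂ))) (m : ℤ),
  1 ≤ N → ls.length = e.length →
  EA N (scl ls e) m = (e.map fun c => c.1 N * c.2 N).prod * EA N ls m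

/-! ### Near `χ = 0`, `k` fixed -/

/-- POT3F: the ring has a potential near `0` -/
def S_POT3F : Prop := ∀ (ρ₀ c C : ℝ) (s dl : ℂ → ℂ → ℂ → ℂ), SD3 ρ₀ c C s dl →
  ∀ R₀ B₀ : ℝ, 0 < R₀ → 0 < B₀ → ∀ n : ℕ, 2 ≤ n →
  ∃ R c' B : ℝ, 0 < R ∧ R ≤ ρ₀ ∧ R ≤ R₀ ∧ 0 < c' ∧ 0 < B ∧
    ∀ (Y : ℕ → ℕ → ℂ → ℂ) (F : ℕ → ℂ → ℂ), (∀ j < n, DG R₀ B₀ (Y j) (F j)) →
      Pot (n + 1) R c' B (bet / 2) (SrF s F n) (DrF s F n)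

/-- the conclusion of XLXF -/
def XLXFc : Prop := ∃ (ρ₀ c C : ℝ) (s dl : ℂ → ℂ → ℂ → ℂ), SD3 ρ₀ c C s dl ∧
  ∀ R₀ B₀ : ℝ, 0 < R₀ → 0 < B₀ → ∀ k : ℕ, 1 ≤ k →
  ∃ R c' : ℝ, 0 < R ∧ R ≤ 1 ∧ R ≤ ρ₀ ∧ R ≤ R₀ ∧ 0 < c' ∧
    ∃ B C' M : ℝ, 0 < B ∧ 0 < C' ∧ 0 < M ∧
      ∀ (ls : List (Vx × Vx)) (F : ℕ → ℂ → ℂ) (An : ℕ → ℕ → ℂ → ℂ), ls.length = k →
      (∀ j < 2 * k, DGX R₀ B₀ (vy ls j) (F j) (An j)) →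
      (∀ j < 2 * k, M ≤ |(cw (wl ls) j : ℝ)|) →
      ∃ (G : ℂ → ℂ) (z : ℂ → ℕ → ℂ) (A : ℕ → ℂ → ℂ),
        DifferentiableOn ℂ G (Rc R R) ∧ (∀ χ ∈ Rc R R, G (-χ) = G χ) ∧
        (∀ χ ∈ Rc R R, ‖G χ‖ ≤ B ∧ (deriv (deriv G) χ).re ≤ -c' ∧ bet / 4 ≤ (G χ).re) ∧
        GXc R (fun N χ => (N : ℂ) ^ (2 * k) * XV ls N χ) G A ∧
        (∀ χ ∈ Rc R R, (∀ j < 2 * k, z χ j ∈ Rc (R / 2) (R / 2) ∧ 0 < (z χ j).im ∧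
            ‖z χ j‖ ≤ 1 / 10 ∧
          Complex.I * cw (wl ls) ((j + 1) % (2 * k)) * z χ ((j + 1) % (2 * k)) / (2 * π) +
            Complex.I + deriv (F ((j + 1) % (2 * k))) (z χ ((j + 1) % (2 * k))) +
            deriv (fun w => s (z χ j) w χ) (z χ ((j + 1) % (2 * k))) +
            deriv (fun w => s w (z χ (((j + 1) % (2 * k) + 1) % (2 * k))) χ)
              (z χ ((j + 1) % (2 * k))) = 0) ∧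
          deriv G χ = ∑ j ∈ range (2 * k), deriv (fun w => s (z χ j) (z χ ((j + 1) % (2 * k))) w) χ ∧
          G χ = ∑ j ∈ range (2 * k), (Complex.I * cw (wl ls) j * z χ j ^ 2 / (4 * π) +
            Complex.I * z χ j + F j (z χ j) + s (z χ j) (z χ ((j + 1) % (2 * k))) χ)) ∧
        ∀ m : ℝ, (∀ j < 2 * k, m ≤ |(cw (wl ls) j : ℝ)|) → 0 < m →
          ‖G 0 - ((4 * k * bet : ℝ) : ℂ)‖ ≤ C' / m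

/-- XLXF: the expansion of `XV` near `χ = 0` (`Pool.Agent.Y482.Ph.S_XLX`) -/
def S_XLXF : Prop := S_POT3F → XLXFc

/-! ### Near `χ₀`, `k` and `m` fixed -/

/-- UQZF: small critical configurations for fixed `χ` are unique -/
def S_UQZF : Prop := ∀ (ρ C : ℝ), 0 < ρ → ∃ M : ℝ, 0 < M ∧ ∀ (n : ℕ) (σ : ℂ → ℂ → ℂ)
  (F : ℕ → ℂ → ℂ) (a : ℕ → ℤ) (z z' : ℕ → ℂ), 2 ≤ n →
  DifferentiableOn ℂ (fun p : ℂ × ℂ => σ p.1 p.2) (Rc ρ ρ ×ˢ Rc ρ ρ) →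
  (∀ ψ ∈ Rc ρ ρ, ∀ ψ' ∈ Rc ρ ρ, ‖σ ψ ψ'‖ ≤ C) →
  (∀ j < n, DifferentiableOn ℂ (F j) (Rc ρ ρ) ∧ ∀ ψ ∈ Rc ρ ρ, ‖F j ψ‖ ≤ C) →
  (∀ j < n, M ≤ |(a j : ℝ)|) →
  (∀ j < n, z j ∈ Rc (ρ / 2) (ρ / 2) ∧ z' j ∈ Rc (ρ / 2) (ρ / 2) ∧
    Complex.I * a ((j + 1) % n) * z ((j + 1) % n) / (2 * π) + Complex.I +
      deriv (F ((j + 1) % n)) (z ((j + 1) % n)) +
      deriv (fun w => σ (z j) w) (z ((j + 1) % n)) +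
      deriv (fun w => σ w (z (((j + 1) % n + 1) % n))) (z ((j + 1) % n)) = 0 ∧
    Complex.I * a ((j + 1) % n) * z' ((j + 1) % n) / (2 * π) + Complex.I +
      deriv (F ((j + 1) % n)) (z' ((j + 1) % n)) +
      deriv (fun w => σ (z' j) w) (z' ((j + 1) % n)) +
      deriv (fun w => σ w (z' (((j + 1) % n + 1) % n))) (z' ((j + 1) % n)) = 0) →
  ∀ j < n, z j = z' j

/-- `XLFc` with the expansion -/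
def XLZXFc : Prop := ∀ (χ₀ : ℂ) (ρ₀ c C : ℝ), Zr χ₀ → bet ≤ (s0 χ₀).re →
  SDZ χ₀ ρ₀ c C szz dzz → ∀ R₀ B₀ : ℝ, 0 < R₀ → 0 < B₀ → ∀ k : ℕ, 1 ≤ k →
  ∃ R c' : ℝ, 0 < R ∧ R ≤ 1 ∧ R ≤ ρ₀ ∧ R ≤ R₀ ∧ 0 < c' ∧
    ∃ B C' M : ℝ, 0 < B ∧ 0 < C' ∧ 0 < M ∧
      ∀ (ls : List (Vx × Vx)) (F : ℕ → ℂ → ℂ) (An : ℕ → ℕ → ℂ → ℂ), ls.length = k →
      (∀ j < 2 * k, DGX R₀ B₀ (vy ls j) (F j) (An j)) →
      (∀ j < 2 * k, M ≤ |(cw (wl ls) j : ℝ)|) →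
      ∃ (G : ℂ → ℂ) (z : ℂ → ℕ → ℂ) (A : ℕ → ℂ → ℂ),
        DifferentiableOn ℂ G (Rc R R) ∧
        (∀ χ ∈ Rc R R, ‖G χ‖ ≤ B ∧ (deriv (deriv G) χ).re ≤ -c') ∧
        MW (fun N χ => XV ls N (χ + χ₀)) G (Rc R R) ∧
        GXo (Rc R R) (fun N χ => (N : ℂ) ^ (2 * k) * XV ls N (χ + χ₀)) G A ∧
        (∀ χ ∈ Rc R R, (∀ j < 2 * k, z χ j ∈ Rc (R / 2) (R / 2) ∧ 0 < (z χ j).im ∧
            ‖z χ j‖ ≤ 1 / 10 ∧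
          Complex.I * cw (wl ls) ((j + 1) % (2 * k)) * z χ ((j + 1) % (2 * k)) / (2 * π) +
            Complex.I + deriv (F ((j + 1) % (2 * k))) (z χ ((j + 1) % (2 * k))) +
            deriv (fun w => szz (z χ j) w (χ + χ₀)) (z χ ((j + 1) % (2 * k))) +
            deriv (fun w => szz w (z χ (((j + 1) % (2 * k) + 1) % (2 * k))) (χ + χ₀))
              (z χ ((j + 1) % (2 * k))) = 0) ∧
          deriv G χ = ∑ j ∈ range (2 * k),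
            deriv (fun w => szz (z χ j) (z χ ((j + 1) % (2 * k))) w) (χ + χ₀) ∧
          G χ = ∑ j ∈ range (2 * k), (Complex.I * cw (wl ls) j * z χ j ^ 2 / (4 * π) +
            Complex.I * z χ j + F j (z χ j) +
            szz (z χ j) (z χ ((j + 1) % (2 * k))) (χ + χ₀))) ∧
        ∀ m : ℝ, (∀ j < 2 * k, m ≤ |(cw (wl ls) j : ℝ)|) → 0 < m →
          (∀ χ ∈ Rc R R, ∀ j < 2 * k, ‖z χ j‖ ≤ C' / m) ∧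
          ∀ χ ∈ Rc R R, ‖G χ - 2 * k * szz 0 0 (χ + χ₀)‖ ≤ C' / m

/-- XPXF: the expansion near `χ₀`, by continuation along a path from `0` to `χ₀`
(`Pool.Agent.Y472.S_XPX`, `Pool.Agent.Y290.CJ.XPX`) -/
def S_XPXF : Prop := S_UQZF → XLFc → XLXFc → XLZXFc

/-- MXZF: the expansion, `k` and `m` fixed (`Pool.Agent.Y710.CJ.MXZ`, `Pool.Agent.Y529.DR`) -/
def S_MXZF : Prop := XLZXFc → ∀ (k : ℕ) (m : ℤ), 1 ≤ k → 0 ≤ m → ¬ (k = 1 ∧ m = 0) →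
  ∃ (χ₀ : ℂ) (ρ₀ c C : ℝ), Zr χ₀ ∧ SDZ χ₀ ρ₀ c C szz dzz ∧
  ∀ R₀ B₀ ε : ℝ, 0 < R₀ → 0 < B₀ → 0 < ε → ∃ M : ℝ,
    ∀ (ls : List (Vx × Vx)) (F : ℕ → ℂ → ℂ) (An : ℕ → ℕ → ℂ → ℂ), ls.length = k →
    (∀ j < 2 * k, DGX R₀ B₀ (vy ls j) (F j) (An j)) → (∀ j < 2 * k, M ≤ |(cw (wl ls) j : ℝ)|) →
    ∃ (z : ℕ → ℂ) (χ : ℂ) (y : ℕ → ℂ),
      RCritF szz χ₀ ρ₀ (2 * k) (cw (wl ls)) (fun j => deriv (F j) (z j)) m z χ ∧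
      (∀ j < 2 * k, z j ∈ Rc R₀ R₀ ∧ ‖z j‖ ≤ ε) ∧ ‖χ - χ₀‖ ≤ ε ∧ y 0 ≠ 0 ∧
      EXY (fun N => ES N ls m)
        (RVal3 szz (2 * k) (cw (wl ls)) m z χ + ∑ j ∈ range (2 * k), F j (z j)) y

/-! ### `|m|` large, `k` fixed, and the ring with its axis -/

/-- bounds of the traces near the real axis -/
def FXF (ρs : ℝ) (ls : List (Vx × Vx)) : Prop := ∃ τ : ℝ, 0 < τ ∧
  (∀ᶠ N : ℕ in atTop, ∀ χ : ℂ, |χ.re| ≤ π → |χ.im| ≤ τ →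
    ‖TV N ls χ - TmV N ls χ‖ ≤ Real.exp (N * ((4 * ls.length - 1 / 2) * bet))) ∧
  (∀ ε : ℝ, 0 < ε → ∃ τ' : ℝ, 0 < τ' ∧ ∀ᶠ N : ℕ in atTop, ∀ χ : ℂ, |χ.re| ≤ π → |χ.im| ≤ τ' →
    ‖TV N ls χ‖ ≤ Real.exp (N * (4 * ls.length * bet - 2 * ls.length * c1 * min |χ.re| ρs ^ 2 + ε))) ∧
  (∀ᶠ N : ℕ in atTop, ∀ p < N,
    (2 * p ≤ N → ‖ThV N ls p‖ ≤ Real.exp (N * ((4 * ls.length - 1 / 2) * bet))) ∧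
    (N ≤ 2 * p → ‖TV N ls (2 * π * p / N) - ThV N ls p‖ ≤
      Real.exp (N * ((4 * ls.length - 1 / 2) * bet))))

/-- FARF (`Pool.Agent.Y590.CB.Farx`) -/
def S_FARF : Prop := ∃ ρs : ℝ, 0 < ρs ∧ ρs ≤ 1 ∧
  ∀ ls : List (Vx × Vx), ls ≠ [] → SubL ls → FXF ρs ls

/-- NRF: reduction to the near part (`Pool.Agent.Y482.Ph.S_NR`) -/
def S_NRF : Prop := S_FARF → ∀ (k : ℕ) (R : ℝ), 1 ≤ k → 0 < R → R ≤ 1 → ∃ κ : ℝ, 0 < κ ∧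
  ∀ (ls : List (Vx × Vx)) (m : ℤ), ls.length = k → SubL ls → ∀ᶠ N : ℕ in atTop,
    ‖ES N ls m - ((N : ℂ) / (2 * π)) ^ (2 * k) *
      nearS R N (deriv fun χ => wE N m χ * XV ls N χ)‖ ≤ Real.exp (N * (4 * k * bet - κ)) ∧
    ‖EA N ls m - ((N : ℂ) / (2 * π)) ^ (2 * k) *
      nearS R N (fun χ => Ea (2 * m) N χ * XV ls N χ)‖ ≤ Real.exp (N * (4 * k * bet - κ))

/-- critical configurations near `χ = 0` -/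
def RCrit3F (s : ℂ → ℂ → ℂ → ℂ) (ρ : ℝ) (n : ℕ) (a : ℕ → ℤ) (g : ℕ → ℂ) (m : ℤ) (z : ℕ → ℂ)
    (χ : ℂ) : Prop :=
  χ ∈ Rc ρ ρ ∧ 0 < χ.im ∧ ‖χ‖ ≤ 1 / 10 ∧
  (∀ j < n, z j ∈ Rc ρ ρ ∧ 0 < (z j).im ∧ ‖z j‖ ≤ 1 / 10 ∧
    Complex.I * a ((j + 1) % n) * z ((j + 1) % n) / (2 * π) + Complex.I + g ((j + 1) % n) +
      deriv (fun w => s (z j) w χ) (z ((j + 1) % n)) +
      deriv (fun w => s w (z (((j + 1) % n + 1) % n)) χ) (z ((j + 1) % n)) = 0) ∧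
  Complex.I * m * χ / π + Complex.I +
    ∑ j ∈ range n, deriv (fun w => s (z j) (z ((j + 1) % n)) w) χ = 0

/-- critical configurations at `χ = 0` -/
def RCrit0F (s : ℂ → ℂ → ℂ → ℂ) (ρ : ℝ) (n : ℕ) (a : ℕ → ℤ) (g : ℕ → ℂ) (z : ℕ → ℂ) : Prop :=
  ∀ j < n, z j ∈ Rc ρ ρ ∧ 0 < (z j).im ∧ ‖z j‖ ≤ 1 / 10 ∧
    Complex.I * a ((j + 1) % n) * z ((j + 1) % n) / (2 * π) + Complex.I + g ((j + 1) % n) +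
      deriv (fun w => s (z j) w 0) (z ((j + 1) % n)) +
      deriv (fun w => s w (z (((j + 1) % n + 1) % n)) 0) (z ((j + 1) % n)) = 0

/-- MXF: the expansion, `k` fixed and `|m|` large (`Pool.Agent.Y852.PH.MX.mx`) -/
def S_MXF : Prop := XLXFc → S_FARF → S_NRF → ∃ (ρ₀ c C : ℝ) (s dl : ℂ → ℂ → ℂ → ℂ),
  SD3 ρ₀ c C s dl ∧ ∀ R₀ B₀ : ℝ, 0 < R₀ → 0 < B₀ → ∀ k : ℕ, 1 ≤ k → ∃ M : ℝ,
    ∀ (ls : List (Vx × Vx)) (F : ℕ → ℂ → ℂ) (An : ℕ → ℕ → ℂ → ℂ) (m : ℤ), ls.length = k →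
    (∀ j < 2 * k, DGX R₀ B₀ (vy ls j) (F j) (An j)) →
    (∀ j < 2 * k, M ≤ |(cw (wl ls) j : ℝ)|) → M ≤ |(m : ℝ)| →
    ∃ (z : ℕ → ℂ) (χ : ℂ) (y : ℕ → ℂ),
      RCrit3F s ρ₀ (2 * k) (cw (wl ls)) (fun j => deriv (F j) (z j)) m z χ ∧ ‖χ‖ < 1 / 10 ∧
      (∀ j < 2 * k, z j ∈ Rc R₀ R₀) ∧ y 0 ≠ 0 ∧
      EXY (fun N => ES N ls m)
        (RVal3 s (2 * k) (cw (wl ls)) m z χ + ∑ j ∈ range (2 * k), F j (z j)) y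

/-- MXAF: the expansion, the ring with its axis (`Pool.Agent.Y852.PH.MX.mxa`) -/
def S_MXAF : Prop := XLXFc → S_FARF → S_NRF → ∃ (ρ₀ c C : ℝ) (s dl : ℂ → ℂ → ℂ → ℂ),
  SD3 ρ₀ c C s dl ∧ ∀ R₀ B₀ : ℝ, 0 < R₀ → 0 < B₀ → ∀ k : ℕ, 1 ≤ k → ∃ M : ℝ,
    ∀ (ls : List (Vx × Vx)) (F : ℕ → ℂ → ℂ) (An : ℕ → ℕ → ℂ → ℂ) (m : ℤ), ls.length = k →
    (∀ j < 2 * k, DGX R₀ B₀ (vy ls j) (F j) (An j)) →
    (∀ j < 2 * k, M ≤ |(cw (wl ls) j : ℝ)|) →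
    ∃ (z : ℕ → ℂ) (y : ℕ → ℂ),
      RCrit0F s ρ₀ (2 * k) (cw (wl ls)) (fun j => deriv (F j) (z j)) z ∧
      (∀ j < 2 * k, z j ∈ Rc R₀ R₀) ∧ y 0 ≠ 0 ∧
      EXY (fun N => N * EA N ls m)
        (Pool.Agent.Y482.Ph.RVal0 s (2 * k) (cw (wl ls)) z + ∑ j ∈ range (2 * k), F j (z j)) y

/-! ### Absolute constants, many vertices -/

/-- the potential of the ring for fixed `χ` -/
noncomputable def SxF (s : ℂ → ℂ → ℂ → ℂ) (F : ℕ → ℂ → ℂ) (n : ℕ) (χ : ℂ) (ψ : ℕ → ℂ) : ℂ :=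
  Sx s n χ ψ + ∑ j ∈ range n, F j (ψ j)

/-- its partial derivatives -/
noncomputable def DxF (s : ℂ → ℂ → ℂ → ℂ) (F : ℕ → ℂ → ℂ) (n : ℕ) (χ : ℂ) (j : ℕ)
    (ψ : ℕ → ℂ) : ℂ :=
  deriv (fun w => SxF s F n χ (Function.update ψ j w)) (ψ j)

/-- POTAF: the ring has a potential with absolute constants (`Pool.Agent.Y472.S_POTA`) -/
def S_POTAF : Prop := ∀ (ρ₀ c C : ℝ) (s dl : ℂ → ℂ → ℂ → ℂ), SD3 ρ₀ c C s dl →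
  ∀ R₀ B₀ : ℝ, 0 < R₀ → 0 < B₀ → ∃ R c' B p₀ : ℝ, 0 < R ∧ R ≤ ρ₀ ∧ R ≤ R₀ ∧
    ∀ R' : ℝ, 0 < R' → R' ≤ R → ∀ n : ℕ, 2 ≤ n → ∃ B' : ℝ,
    ∀ (Y : ℕ → ℕ → ℂ → ℂ) (F : ℕ → ℂ → ℂ), (∀ j < n, DG R₀ B₀ (Y j) (F j)) →
    ∀ χ ∈ Rc R R, PotA n R' c' B p₀ B' (SxF s F n χ) (DxF s F n χ)

/-- GPAF: the critical value as a function of `χ`, absolute constants (`Pool.Agent.Y472.S_GPA`) -/
def S_GPAF : Prop := ∀ (ρ₀ c C : ℝ) (s dl : ℂ → ℂ → ℂ → ℂ), SD3 ρ₀ c C s dl →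
  ∀ R₀ B₀ : ℝ, 0 < R₀ → 0 < B₀ →
  ∃ R c₂ B₂ C' M : ℝ, 0 < R ∧ R ≤ ρ₀ ∧ R ≤ R₀ ∧ 0 < c₂ ∧ 0 < B₂ ∧ 0 < C' ∧ 0 < M ∧
  ∀ n : ℕ, 2 ≤ n → ∀ (Y : ℕ → ℕ → ℂ → ℂ) (F : ℕ → ℂ → ℂ), (∀ j < n, DG R₀ B₀ (Y j) (F j)) →
  ∀ a : ℕ → ℤ, (∀ j < n, M ≤ |(a j : ℝ)|) → ∃ (G : ℂ → ℂ) (z : ℂ → ℕ → ℂ),
    DifferentiableOn ℂ G (Rc R R) ∧
    (∀ χ ∈ Rc R R, G (-χ) = G χ ∧ (deriv (deriv G) χ).re ≤ -(c₂ * n) ∧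
      ‖deriv (deriv G) χ‖ ≤ B₂ * n) ∧
    (∀ χ ∈ Rc R R, (∀ j < n, ‖z χ j‖ ≤ C' / |(a j : ℝ)| ∧ z χ j ∈ Rc (ρ₀ / 2) (ρ₀ / 2) ∧
        z χ j ∈ Rc (R₀ / 2) (R₀ / 2) ∧ 0 < (z χ j).im ∧ ‖z χ j‖ ≤ 1 / 10 ∧
      Complex.I * a ((j + 1) % n) * z χ ((j + 1) % n) / (2 * π) + Complex.I +
        deriv (F ((j + 1) % n)) (z χ ((j + 1) % n)) +
        deriv (fun w => s (z χ j) w χ) (z χ ((j + 1) % n)) +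
        deriv (fun w => s w (z χ (((j + 1) % n + 1) % n)) χ) (z χ ((j + 1) % n)) = 0) ∧
      deriv G χ = ∑ j ∈ range n, deriv (fun w => s (z χ j) (z χ ((j + 1) % n)) w) χ ∧
      G χ = ∑ j ∈ range n, (Complex.I * a j * z χ j ^ 2 / (4 * π) +
        Complex.I * z χ j + F j (z χ j) + s (z χ j) (z χ ((j + 1) % n)) χ)) ∧
    ∀ m : ℝ, (∀ j < n, m ≤ |(a j : ℝ)|) → 0 < m → ∀ χ ∈ Rc R R,
      ‖G χ - n * s 0 0 χ‖ ≤ C' * n / m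

/-- the product of kernels, depending on the edge, over the ring -/
noncomputable def WrF (K : ℕ → ℂ → ℂ → ℂ) (n : ℕ) (ψ : ℕ → ℂ) : ℂ :=
  ∏ j ∈ range n, K j (ψ j) (ψ ((j + 1) % n))

/-- the ring potential of functions of two variables -/
noncomputable def SgF (σ : ℕ → ℂ → ℂ → ℂ) (n : ℕ) (ψ : ℕ → ℂ) : ℂ :=
  ∑ j ∈ range n, σ j (ψ j) (ψ ((j + 1) % n))

/-- its partial derivatives -/
noncomputable def DgF (σ : ℕ → ℂ → ℂ → ℂ) (n : ℕ) (j : ℕ) (ψ : ℕ → ℂ) : ℂ :=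
  deriv (fun w => SgF σ n (Function.update ψ j w)) (ψ j)

/-- FRDF: the part of the integral with a variable away from the origin, absolute constants; the
kernel depends on the edge (`Pool.Agent.Y472.S_FRD`) -/
def S_FRDF : Prop := ∀ (R c B p₀ C κ τ : ℝ), 0 < C → 0 < κ → 0 < τ → ∃ M : ℝ, 0 < M ∧
  ∀ (n : ℕ) (B' : ℝ) (σ : ℕ → ℂ → ℂ → ℂ), 2 ≤ n → PotA n R c B p₀ B' (SgF σ n) (DgF σ n) →
  (∀ j < n, ∀ ψ ∈ Rc R R, ∀ ψ' ∈ Rc R R, ‖σ j ψ ψ' - σ j 0 ψ'‖ ≤ B * ‖ψ‖ ^ 2 ∧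
    ‖σ j ψ' ψ - σ j ψ' 0‖ ≤ B * ‖ψ‖ ^ 2) →
  ∀ a : ℕ → ℤ, (∀ j < n, M ≤ |(a j : ℝ)|) → ∀ zz : ℕ → (ℕ → ℂ) → ℕ → ℂ,
  Crt n R c B' (p₀ * n) C (SgF σ n) (DgF σ n) a zz →
  ∀ K : ℕ → ℕ → ℂ → ℂ → ℂ, (∀ N, ∀ l < n, ∀ i < n, ∀ j < n, Sep n fun ψ => K N l (ψ i) (ψ j)) →
  (∀ ε : ℝ, 0 < ε → ∀ᶠ N : ℕ in atTop, ∀ j < n, ∀ ψ ∈ Rc (R / 2) (R / 2),
    ∀ ψ' ∈ Rc (R / 2) (R / 2), ‖K N j ψ ψ'‖ ≤ Real.exp (N * ((σ j ψ ψ').re + ε))) →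
  (∀ᶠ N : ℕ in atTop, ∀ j < n, ∀ ψ ψ' : ℂ, R / 8 ≤ |ψ.re| → |ψ.re| ≤ π → |ψ.im| ≤ 1 / N →
    |ψ'.re| ≤ R / 8 → |ψ'.im| ≤ τ → ‖K N j ψ ψ'‖ ≤ Real.exp (N * ((σ j 0 ψ').re - κ)) ∧
      ‖K N j ψ' ψ‖ ≤ Real.exp (N * ((σ j ψ' 0).re - κ))) →
  (∀ᶠ N : ℕ in atTop, ∀ j < n, ∀ ψ ψ' : ℂ, R / 8 ≤ |ψ.re| → |ψ.re| ≤ π → |ψ.im| ≤ 1 / N →
    R / 8 ≤ |ψ'.re| → |ψ'.re| ≤ π → |ψ'.im| ≤ 1 / N →
      ‖K N j ψ ψ'‖ ≤ Real.exp (N * ((σ j 0 0).re - 2 * κ))) →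
  ∀ᶠ N : ℕ in atTop, ‖itI a N n (WrF (K N) n) 0 - itN (fun _ => R / 8) a N n (WrF (K N) n) 0‖ ≤
    Real.exp (N * ((Uj (SgF σ n) a n (zz n 0)).re - κ / 2))

/-- the normalised trace -/
noncomputable def XFV (ls : List (Vx × Vx)) (N : ℕ) (χ : ℂ) : ℂ :=
  (((N : ℂ) / (2 * π)) ^ (2 * ls.length))⁻¹ * TV N ls χ

/-- the conclusion of XFAQF -/
def XFAXFc (ρ₀ : ℝ) (s : ℂ → ℂ → ℂ → ℂ) : Prop := ∀ R₀ B₀ : ℝ, 0 < R₀ → 0 < B₀ →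
  ∃ R c₂ B₂ C' M : ℝ, 0 < R ∧ R ≤ 1 ∧ R ≤ ρ₀ ∧ 0 < c₂ ∧ 0 < B₂ ∧ 0 < C' ∧ 0 < M ∧
  ∀ k : ℕ, 1 ≤ k → ∀ (ls : List (Vx × Vx)) (F : ℕ → ℂ → ℂ) (An : ℕ → ℕ → ℂ → ℂ),
    ls.length = k → (∀ j < 2 * k, DGX R₀ B₀ (vy ls j) (F j) (An j)) →
    (∀ j < 2 * k, M ≤ |(cw (wl ls) j : ℝ)|) → ∃ (G : ℂ → ℂ) (z : ℂ → ℕ → ℂ),
      DifferentiableOn ℂ G (Rc R R) ∧
      (∀ χ ∈ Rc R R, G (-χ) = G χ ∧ (deriv (deriv G) χ).re ≤ -(c₂ * k) ∧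
        ‖deriv (deriv G) χ‖ ≤ B₂ * k) ∧
      (∀ K : Set ℂ, IsCompact K → K ⊆ Rc R R → (∀ χ ∈ K, 0 < χ.im) → MW (XFV ls) G K ∧
        ∃ A : ℕ → ℂ → ℂ, UX (fun N χ => Complex.exp (-(N * G χ)) *
          ((N : ℂ) ^ (2 * k) * XFV ls N χ)) A K ∧ ∀ χ ∈ K, A 0 χ ≠ 0) ∧
      (∀ χ ∈ Rc R R, (∀ j < 2 * k, z χ j ∈ Rc ρ₀ ρ₀ ∧ z χ j ∈ Rc R₀ R₀ ∧ 0 < (z χ j).im ∧
          ‖z χ j‖ ≤ 1 / 10 ∧
        Complex.I * cw (wl ls) ((j + 1) % (2 * k)) * z χ ((j + 1) % (2 * k)) / (2 * π) +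
          Complex.I + deriv (F ((j + 1) % (2 * k))) (z χ ((j + 1) % (2 * k))) +
          deriv (fun w => s (z χ j) w χ) (z χ ((j + 1) % (2 * k))) +
          deriv (fun w => s w (z χ (((j + 1) % (2 * k) + 1) % (2 * k))) χ)
            (z χ ((j + 1) % (2 * k))) = 0) ∧
        deriv G χ = ∑ j ∈ range (2 * k), deriv (fun w => s (z χ j) (z χ ((j + 1) % (2 * k))) w) χ ∧
        G χ = ∑ j ∈ range (2 * k), (Complex.I * cw (wl ls) j * z χ j ^ 2 / (4 * π) +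
          Complex.I * z χ j + F j (z χ j) + s (z χ j) (z χ ((j + 1) % (2 * k))) χ)) ∧
      ∀ m : ℝ, (∀ j < 2 * k, m ≤ |(cw (wl ls) j : ℝ)|) → 0 < m → ∀ χ ∈ Rc R R,
        ‖G χ - 2 * k * s 0 0 χ‖ ≤ C' * k / m

/-- XFAQF (`Pool.Agent.Y472.S_XFAQ`, `Pool.Agent.Y833.CJ.Xfaq`) -/
def S_XFAQF : Prop := S_POTAF → S_GPAF → S_FRDF → ∀ (ρ₀ c C : ℝ) (s dl : ℂ → ℂ → ℂ → ℂ),
  SD3 ρ₀ c C s dl → (∃ (ρ₂ : ℝ) (A : ℕ → ℂ × ℂ × ℂ → ℂ), ρ₂ ≤ ρ₀ ∧ KXD3 ρ₂ s A) → XFAXFc ρ₀ s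

/-- MXNF: the expansion for many vertices, absolute constants (`Pool.Agent.Y833.CJ.MXN`) -/
def S_MXNF : Prop := ∀ (ρ₀ c C : ℝ) (s dl : ℂ → ℂ → ℂ → ℂ), SD3 ρ₀ c C s dl → XFAXFc ρ₀ s →
  ∀ R₀ B₀ : ℝ, 0 < R₀ → 0 < B₀ → ∃ (K : ℕ) (M : ℝ), ∀ k : ℕ, K ≤ k →
    ∀ (ls : List (Vx × Vx)) (F : ℕ → ℂ → ℂ) (An : ℕ → ℕ → ℂ → ℂ) (m : ℤ), ls.length = k →
    (∀ j < 2 * k, DGX R₀ B₀ (vy ls j) (F j) (An j)) →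
    (∀ j < 2 * k, M ≤ |(cw (wl ls) j : ℝ)|) →
    ∃ (z : ℕ → ℂ) (χ : ℂ) (y : ℕ → ℂ), ‖χ‖ < 1 / 10 ∧
      RCrit3F s ρ₀ (2 * k) (cw (wl ls)) (fun j => deriv (F j) (z j)) m z χ ∧
      (∀ j < 2 * k, z j ∈ Rc R₀ R₀) ∧ y 0 ≠ 0 ∧
      EXY (fun N => ES N ls m)
        (RVal3 s (2 * k) (cw (wl ls)) m z χ + ∑ j ∈ range (2 * k), F j (z j)) y

/-! ### Geometry -/

/-- GEOD3: near `χ = 0` the critical value is the maximal volume of the angle structures -/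
def S_GEOD3 : Prop := ∀ (ρ τ κ cc : ℝ) (s dl : ℂ → ℂ → ℂ), KD ρ τ κ cc s dl →
  ∀ (ρ₀ c C : ℝ) (s3 dl3 : ℂ → ℂ → ℂ → ℂ), SD3 ρ₀ c C s3 dl3 →
    ∀ (n : ℕ) (m : ℤ) (p : ℕ → PB) (χ : ℂ), 1 ≤ n →
      (∀ j < n, (p j).bl = false ∧ (p j).Crt s ρ τ ∧ (p j).rz ∈ Rc ρ τ) → ‖χ‖ < 1 / 10 →
      RCrit3F s3 ρ₀ n (fun j => (p j).wt) (fun j => (p j).gs s) m (fun j => (p j).rz) χ →
      IsGreatest {W : ℝ | ∃ (y : ℕ → AB) (f g F G : ℕ → Fl), (∀ j < n, (y j).shape = (p j).shape) ∧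
          DAng n m y f g F G ∧ dVol n y f g F G = W}
        (2 * π * (RVal3 s3 n (fun j => (p j).wt) m (fun j => (p j).rz) χ +
          ∑ j ∈ range n, (p j).vl s).re)

/-- angle structures of the ring of trees together with its axis: the cusp of the axis is complete -/
structure DAngA (n : ℕ) (y : ℕ → AB) (f g F G : ℕ → Fl) : Prop where
  pos : ∀ j < n, (f j).Pos ∧ (g j).Pos ∧ (F j).Pos ∧ (G j).Pos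
  diag : ∀ j < n, (f j).b + (f j).c' + ((g j).b + (g j).c') = 2 * π ∧
    (F j).b + (F j).c' + ((G j).b + (G j).c') = 2 * π
  tree : ∀ j < n, (y j).OK
  vert : ∀ j < n, VD (y ((j + 1) % n)).wt (y ((j + 1) % n)).fl (f j) (g j) (F j) (G j)
    (f ((j + 1) % n)) (g ((j + 1) % n)) (F ((j + 1) % n)) (G ((j + 1) % n))
  long : Pool.Agent.Y482.Chi.rlam (f 0) (g 0) (F 0) (G 0) = 0
  mer : ∑ j ∈ range n, Pool.Agent.Y482.Chi.rho (f j) (g j) (F j) (G j) = 0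

/-- GEODA: at `χ = 0` the critical value is the maximal volume of the angle structures of the ring
with its axis -/
def S_GEODA : Prop := ∀ (ρ τ κ cc : ℝ) (s dl : ℂ → ℂ → ℂ), KD ρ τ κ cc s dl →
  ∀ (ρ₀ c C : ℝ) (s3 dl3 : ℂ → ℂ → ℂ → ℂ), SD3 ρ₀ c C s3 dl3 →
    ∀ (n : ℕ) (p : ℕ → PB), 1 ≤ n →
      (∀ j < n, (p j).bl = false ∧ (p j).Crt s ρ τ ∧ (p j).rz ∈ Rc ρ τ) →
      RCrit0F s3 ρ₀ n (fun j => (p j).wt) (fun j => (p j).gs s) (fun j => (p j).rz) →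
      IsGreatest {W : ℝ | ∃ (y : ℕ → AB) (f g F G : ℕ → Fl), (∀ j < n, (y j).shape = (p j).shape) ∧
          DAngA n y f g F G ∧ dVol n y f g F G = W}
        (2 * π * (Pool.Agent.Y482.Ph.RVal0 s3 n (fun j => (p j).wt) (fun j => (p j).rz) +
          ∑ j ∈ range n, (p j).vl s).re)

end Pool.Agent.Y481.DX
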