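import Pool.Agent.Y481.DX.Vol
import Pool.Agent.W715.VC.Axis
import Pool.Agent.Y884.DR.JpdCnd

/-!
# Rings of trees together with their axes: four strands
-/

set_option autoImplicit false

namespace Pool.Agent.Y481.DX

open Matrix Finset Filter Topology
open Pool.Agent.W711.HT hiding XX
open Pool.Agent.Y481.DR
open Pool.Agent.Y472 (ftw)
open Pool.Agent.H550R3.Jones (gen rep tail crossP crossN)
open Pool.Agent.TH563.UV (Tb AB op)
open Pool.Agent.W719.AR (Fl)
open Pool.Agent.W719.AX (EXY)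
open Pool.Agent.W715.VC (axisWord rt rt_ne rt_zpow_N norm_rt_zpow adm axis_entry' rep_append)
open Pool.Agent.Y482.DX (CVG PC PAx)
open scoped Real

/-- the operator of the ring of trees on the last three of four strands -/
noncomputable def opX (N : ℕ) (v : ℂ) (ts : List (Tb × Tb)) :
    Matrix (Fin 4 → Fin N) (Fin 4 → Fin N) ℂ :=
  (ts.map fun p => gen (op N v p.1) 4 1 * gen (op N v p.2) 4 2).prod

/-- the operator of the ring of trees with full twists and with the axis, on four strands -/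
noncomputable def wX (N : ℕ) (v : ℂ) (m : ℤ) (ts : List (Tb × Tb)) :
    Matrix (Fin 4 → Fin N) (Fin 4 → Fin N) ℂ :=
  rep (crossP N v) (crossN N v) 4 (axisWord ++ (ftw m).map fun g => (g.1 + 1, g.2)) * opX N v ts

/-- the invariant of the ring of trees with its axis: closure of a braid-like tangle on four
strands, the first one being the axis -/
noncomputable def JX (ts : List (Tb × Tb)) (m : ℤ) (N : ℕ) (v : ℂ) : ℂ :=
  if h : 0 < N then
    tail (fun x : Fin N => v ^ ((N : ℤ) - 1 - 2 * (x : ℕ))) 3 (wX N v m ts) ⟨0, h⟩ ⟨0, h⟩ else 0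

lemma opX_eq (N : ℕ) (v : ℂ) (ts : List (Tb × Tb)) :
    opX N v ts = Pool.Agent.H229R3.J.sh (opD N v ts) := by
  unfold opX opD
  induction ts with
  | nil => simp [Pool.Agent.H229R3.J.sh_one]
  | cons p ts ih =>
    simp only [List.map_cons, List.prod_cons]
    rw [ih, Pool.Agent.H229R3.J.sh_mul, Pool.Agent.H229R3.J.sh_mul]
    congr 2
    · exact Pool.Agent.H229R3.J.gen_sh _ 3 0
    · exact Pool.Agent.H229R3.J.gen_sh _ 3 1

/-- the trace over all strands -/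
theorem tail_axis {N : ℕ} (hN : 0 < N) (X : Matrix (Fin 3 → Fin N) (Fin 3 → Fin N) ℂ) :
    tail (fun x : Fin N => rt N ^ ((N : ℤ) - 1 - 2 * (x : ℕ))) 3
      (rep (crossP N (rt N)) (crossN N (rt N)) 4 axisWord * Pool.Agent.H229R3.J.sh X)
      ⟨0, hN⟩ ⟨0, hN⟩ = rt N ^ (-3 * ((N : ℤ) - 1)) * X.trace := by
  have h0 := rt_ne N
  unfold tail
  set z : Fin N := ⟨0, hN⟩ with hz
  have hkey : ∀ s : Fin 3 → Fin N,
      (rep (crossP N (rt N)) (crossN N (rt N)) 4 axisWord *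
        Pool.Agent.H229R3.J.sh X) (Fin.cons z s) (Fin.cons z s) =
      rt N ^ (-2 * ((N : ℤ) - 1) * (3 + (s 0 : ℕ) + (s 1 : ℕ) + (s 2 : ℕ))) * X s s := by
    intro s
    rw [Matrix.mul_apply, Pool.Agent.H229R3.J.sum_cons, sum_eq_single z, sum_eq_single s]
    · rw [axis_entry' (adm N) z rfl, if_pos rfl]
      congr 1
    · intro t _ ht
      rw [axis_entry' (adm N) z rfl, if_neg (Ne.symm ht), zero_mul]
    · intro h; exact absurd (mem_univ _) h
    · intro a _ ha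
      refine sum_eq_zero fun t _ => ?_
      unfold Pool.Agent.H229R3.J.sh
      simp [ha]
    · intro h; exact absurd (mem_univ _) h
  rw [Matrix.trace, mul_sum]
  refine sum_congr rfl fun s _ => ?_
  rw [hkey s, ← mul_assoc]
  congr 1
  rw [Fin.prod_univ_three]
  simp only [← zpow_add₀ h0]
  have h2N : rt N ^ (2 * (N : ℤ)) = 1 := by
    rw [mul_comm, _root_.zpow_mul, rt_zpow_N hN]; norm_num
  have hexp : ((N : ℤ) - 1 - 2 * ((s 0 : ℕ) : ℤ)) + ((N : ℤ) - 1 - 2 * ((s 1 : ℕ) : ℤ)) +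
      ((N : ℤ) - 1 - 2 * ((s 2 : ℕ) : ℤ)) +
      -2 * ((N : ℤ) - 1) * (3 + ((s 0 : ℕ) : ℤ) + ((s 1 : ℕ) : ℤ) + ((s 2 : ℕ) : ℤ)) =
      -3 * ((N : ℤ) - 1) + 2 * (N : ℤ) * (-(((s 0 : ℕ) : ℤ) + ((s 1 : ℕ) : ℤ) + ((s 2 : ℕ) : ℤ))) := by
    ring
  rw [hexp, zpow_add₀ h0, _root_.zpow_mul (rt N) (2 * (N : ℤ)), h2N, _root_.one_zpow, mul_one]

/-- the invariant of the ring with its axis is the trace -/
theorem JX_eq {N : ℕ} (hN : 0 < N) (ts : List (Tb × Tb)) (m : ℤ) :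
    JX ts m N (vN N) = vN N ^ (-3 * ((N : ℤ) - 1)) * JA ts m N (vN N) := by
  have hv : vN N = rt N := rfl
  rw [JX, dif_pos hN, wX, rep_append, Pool.Agent.H229R3.J.rep_sh, opX_eq, mul_assoc,
    ← Pool.Agent.H229R3.J.sh_mul, hv, tail_axis hN]
  rfl

theorem norm_JX {N : ℕ} (hN : 0 < N) (ts : List (Tb × Tb)) (m : ℤ) :
    ‖JX ts m N (vN N)‖ = ‖JA ts m N (vN N)‖ := by
  have hv : vN N = rt N := rfl
  rw [JX_eq hN, norm_mul, hv, norm_rt_zpow, one_mul]

/-- the expansion of the invariant of the ring with its axis -/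
theorem exy_JX {ts : List (Tb × Tb)} {m : ℤ} {v : ℂ} {y : ℕ → ℂ} (hy : y 0 ≠ 0)
    (h : EXY (fun N => JA ts m N (vN N)) v y) :
    ∃ y' : ℕ → ℂ, y' 0 ≠ 0 ∧ EXY (fun N => JX ts m N (vN N)) v y' := by
  obtain ⟨y', hy', h'⟩ := h.frame hy (-3) 1
  refine ⟨y', hy', fun K => ?_⟩
  obtain ⟨B, hB⟩ := h' K
  refine ⟨B, ?_⟩
  filter_upwards [hB, eventually_ge_atTop 1] with N hN h1
  have hNc : (N : ℂ) ≠ 0 := by
    have : N ≠ 0 := by omega
    exact_mod_cast this
  have e1 : JX ts m N (vN N) = (-1 : ℂ) ^ ((1 : ℤ) * ((N : ℤ) - 1)) *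
      Complex.exp (Real.pi * Complex.I / N) ^ ((-3 : ℤ) * ((N : ℤ) ^ 2 - 1)) *
        JA ts m N (vN N) := by
    rw [JX_eq (by omega)]
    congr 1
    have e4 : vN N = Complex.exp (Real.pi * Complex.I / N) := rfl
    rw [e4, ← Complex.exp_int_mul, ← Complex.exp_pi_mul_I, ← Complex.exp_int_mul,
      ← Complex.exp_int_mul, ← Complex.exp_add, Complex.exp_eq_exp_iff_exists_int]
    refine ⟨(N : ℤ) - 1, ?_⟩
    push_cast
    field_simp
    ring
  have e5 : Complex.exp (N * (v + Real.pi * Complex.I * (((-3 : ℤ) : ℂ) + ((1 : ℤ) : ℂ)))) =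
      Complex.exp (N * v) := by
    rw [Complex.exp_eq_exp_iff_exists_int]
    refine ⟨-(N : ℤ), ?_⟩
    push_cast
    ring
  rw [e5] at hN
  rw [e1]
  exact hN

/-! ### Continuity -/

section Cont

open Pool.Agent.W749.BS (mul_cont br_v0_ne)
open Pool.Agent.H756R3.J (zpow_cont crossP_cont crossN_cont)
open Pool.Agent.Y884.DR (op_cont)

theorem opX_cont {N : ℕ} {v : ℂ} (hv : v ≠ 0)
    (hN : ∀ k : ℕ, 0 < k → k < N → Pool.Agent.H550R3.Jones.br v k ≠ 0)
    (ts : List (Tb × Tb)) : ∀ s t : Fin 4 → Fin N, ContinuousAt (fun v => opX N v ts s t) v := by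
  intro s t
  simp only [opX_eq]
  unfold Pool.Agent.H229R3.J.sh
  by_cases h : s 0 = t 0
  · simp only [h, if_true]
    exact Pool.Agent.Y884.DR.opD_cont hv hN ts _ _
  · simp only [h, if_false]
    exact continuousAt_const

/-- continuity at the root of unity -/
theorem contX (ts : List (Tb × Tb)) (m : ℤ) (N : ℕ) (hN1 : 1 ≤ N) :
    ContinuousAt (JX ts m N) (vN N) := by
  have h0 : vN N = Pool.Agent.W719.BS.v0 N := rfl
  have hv : vN N ≠ 0 := by
    rw [h0]
    exact Pool.Agent.W749.BS.v0_ne N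
  have hN : ∀ k : ℕ, 0 < k → k < N → Pool.Agent.H550R3.Jones.br (vN N) k ≠ 0 := by
    rw [h0]
    exact fun k h1 h2 => br_v0_ne h1 h2
  have hpos : 0 < N := hN1
  have e : JX ts m N = fun v => ∑ s : Fin 3 → Fin N,
      (∏ x, v ^ ((N : ℤ) - 1 - 2 * ((s x : ℕ) : ℤ))) *
      (wX N v m ts) (Fin.cons ⟨0, hpos⟩ s) (Fin.cons ⟨0, hpos⟩ s) := by
    funext v
    rw [JX, dif_pos hpos]
    rfl
  rw [e]
  refine tendsto_finsetSum _ fun s _ => ?_
  refine ContinuousAt.mul ?_ ?_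
  · exact tendsto_finsetProd _ fun x _ => zpow_cont hv _
  · unfold wX
    refine mul_cont ?_ (opX_cont hv hN ts) _ _
    exact fun p q => Pool.Agent.Y195.CB.cont_rep (fun v => crossP N v) (fun v => crossN N v)
      (vN N) (crossP_cont hv hN) (crossN_cont hv hN) 4 _ p q

end Cont

end Pool.Agent.Y481.DX
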