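import Pool.Agent.Y481.DX.Geo4
import Pool.Agent.Y482.Cv.Sum

/-!
# Rings of trees: flattenings and the complex volume.  Statements

The blocks of the ring are as in `Pool.Agent.Y482.Cv.Defs`, the trees as in
`Pool.Agent.TH563.CV.Flat`.
-/

set_option autoImplicit false

namespace Pool.Agent.Y481.DX

open Finset Filter Topology
open Complex (exp log cos sin I)
open Pool.Agent.W711.HT hiding XX
open Pool.Agent.W719.AR (Fl kp)
open Pool.Agent.W719.AX (EXY)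
open Pool.Agent.TH563.UV (Tb PB AB kb)
open Pool.Agent.TH563.UV.Arb (ofAB)
open Pool.Agent.TH563.CU (across bit)
open Pool.Agent.TH609.UV (hpt lg ang)
open Pool.Agent.Y482.Chi (Lc)
open Pool.Agent.Y482.Cz (BG)
open Pool.Agent.Y482.Cv (cf cg cF cG S8 E8)
open Pool.Agent.Y472 (SD3 SDZ RVal3 S_S0P szz dzz Zr)
open Pool.Agent.Y481.DR
open scoped Real

/-- trees with flattenings -/
abbrev FT : Type := Pool.Agent.TH563.CV.FlatTree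

/-- the conditions at the circle with `w` half twists between the blocks `x` (below) and `y` (above);
`l`: the edges to the children, from above to below -/
structure CFlat (w : ℤ) (l : List Pool.Agent.TH563.CV.Piece) (x y : Pool.Agent.Y482.Cv.Piece) :
    Prop where
  ends : ∀ c ∈ l, c.End
  fill : y.low - x.high + (l.map fun c => c.F.a + c.F.a' + c.F.c' - 1).sum = 2
  even : l = [] → Even w → (x.n2 < x.n3 ↔ y.n2 < y.n1)
  odd : l = [] → Odd w → (x.n2 < x.n3 ↔ y.n1 < y.n2)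
  first : ∀ c ∈ l.head?, (y.n1 < y.n2 ↔ c.n4 < c.n3)
  gaps : l.IsChain fun a b => (a.n1 < a.n2 ↔ b.n4 < b.n3)
  last : ∀ c ∈ l.getLast?, ((c.n1 < c.n2 ↔ x.n3 < x.n2) ↔ Even w)
  out : x.n1 < x.n4 ↔ y.n3 < y.n4

/-- flattenings of the ring of trees; `c` is the label of the meridian of the axis: `-2` if the axis
is filled, `0` if not -/
structure DFlat (n : ℕ) (c : ℤ) (t : ℕ → FT) (x : ℕ → Pool.Agent.Y482.Cv.Piece) : Prop where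
  inner : ∀ j < n, (x j).Inner ∧ (x j).Bottom ∧ (x j).Top
  tree : ∀ j < n, (t j).Below
  vert : ∀ j < n, CFlat (t ((j + 1) % n)).angles.weight (t ((j + 1) % n)).edges (x j)
    (x ((j + 1) % n))
  axis : ∑ j ∈ range n, (x j).along = c

/-- the sum of the dilogarithms -/
noncomputable def csumD (n : ℕ) (t : ℕ → FT) (f g F G : ℕ → Fl)
    (x : ℕ → Pool.Agent.Y482.Cv.Piece) : ℂ :=
  ∑ j ∈ range n, ((t j).complexVolume + (x j).term (f j) (g j) (F j) (G j))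

/-- TCS: the sum of the dilogarithms of a tree, for every flattening (`Pool.Agent.TH563.CU.cv_gen`
with `D = 0`, `e = fun _ _ => dl`, and `Pool.Agent.TH563.CV.cv_val` for the tree `flat dl 0 false p`) -/
def S_TCS : Prop := ∀ (ρ τ κ c : ℝ) (s dl : ℂ → ℂ → ℂ), KD ρ τ κ c s dl → ∀ p : PB, p.Crt s ρ τ →
  p.rz ∈ Rc ρ τ → ‖p.rz‖ ≤ 1 / 10 → ∀ t : FT, t.angles = ofAB (ang dl p) → t.Below →
    (∀ x ∈ t.edges, x.End) → (∀ x ∈ t.edges, Even (across x)) ∧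
    ∃ k : ℤ, t.complexVolume = I * 2 * π * p.vl s + I / 2 * p.rz * lg dl p -
      π / 2 * (((t.edges.map across).sum : ℤ) : ℂ) * p.rz +
      (π : ℂ) ^ 2 / 2 * (((t.edges.map bit).sum + p.shape.ws - p.wt : ℤ) : ℂ) + k * (π : ℂ) ^ 2

/-- CSG: the sum of the dilogarithms of the ring of trees (as `Pool.Agent.Y482.Cv.csum_gen`) -/
def S_CSG : Prop := S_TCS → ∀ (ρ τ κ cc : ℝ) (s dl : ℂ → ℂ → ℂ), KD ρ τ κ cc s dl →
  ∀ (Θ : ℂ → ℂ) (n : ℕ) (p : ℕ → PB) (u sv : ℕ → ℂ) (χ : ℂ), 1 ≤ n →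
  (∀ j < n, (p j).Crt s ρ τ ∧ (p j).rz ∈ Rc ρ τ ∧ ‖(p j).rz‖ ≤ 1 / 10) →
  CritV n (fun j => (p j).wt) (fun j => lg dl (p j)) (fun j => (p j).rz) χ u →
  (∀ j < n, S8 (u j / 2) ((p j).rz / 2) ((p ((j + 1) % n)).rz / 2) (χ / 2) = 2 * π * I * sv j +
      I / 2 * ((p j).rz * Lg (u j) (p j).rz +
        (p ((j + 1) % n)).rz * Lg (u j) (p ((j + 1) % n)).rz + χ * Lc (u j) χ) -
      (Θ ((p j).rz / 2) - Θ ((p j).rz / 2 + χ / 2) -
        (Θ ((p ((j + 1) % n)).rz / 2) - Θ ((p ((j + 1) % n)).rz / 2 + χ / 2))) +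
      π * I / 4 * E8 (u j / 2) ((p j).rz / 2) ((p ((j + 1) % n)).rz / 2) (χ / 2) -
      (π : ℂ) ^ 2 / 2) →
  ∀ (c : ℤ) (t : ℕ → FT) (x : ℕ → Pool.Agent.Y482.Cv.Piece), DFlat n c t x →
    (∀ j < n, (t j).angles = ofAB (ang dl (p j))) →
    ∃ k : ℤ, csumD n t (cf (fun j => (p j).rz) χ u) (cg n (fun j => (p j).rz) χ u)
        (cF (fun j => (p j).rz) χ u) (cG n (fun j => (p j).rz) χ u) x =
      2 * π * I * ∑ j ∈ range n, (I * (p j).wt * (p j).rz ^ 2 / (4 * π) + I * (p j).rz + sv j +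
        (p j).vl s) +
        I / 2 * χ * ∑ j ∈ range n, Lc (u j) χ + π / 2 * χ * c +
        (π : ℂ) ^ 2 / 2 * ∑ j ∈ range n, (((p j).shape.ws : ℤ) : ℂ) + k * (π : ℂ) ^ 2

/-- the statement on the volume and the complex volume at a critical configuration; `v` is the
critical value -/
def GoodD (n : ℕ) (m : ℤ) (p : ℕ → PB) (v : ℂ) : Prop :=
  IsGreatest {W : ℝ | ∃ (y : ℕ → AB) (f g F G : ℕ → Fl), (∀ j < n, (y j).shape = (p j).shape) ∧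
    DAng n m y f g F G ∧ dVol n y f g F G = W} (2 * π * v.re) ∧
  ∀ (y : ℕ → AB) (f g F G : ℕ → Fl) (t : ℕ → FT) (x : ℕ → Pool.Agent.Y482.Cv.Piece),
    (∀ j < n, (y j).shape = (p j).shape) → DAng n m y f g F G → dVol n y f g F G = 2 * π * v.re →
    (∀ j < n, (t j).angles = ofAB (y j)) → DFlat n (-2) t x →
    ∃ k : ℤ, csumD n t f g F G x =
      2 * π * I * (v - π * I / 4 * ∑ j ∈ range n, (((p j).shape.ws : ℤ) : ℂ)) + k * (π : ℂ) ^ 2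

/-- the same for the ring with its axis -/
def GoodA (n : ℕ) (p : ℕ → PB) (v : ℂ) : Prop :=
  IsGreatest {W : ℝ | ∃ (y : ℕ → AB) (f g F G : ℕ → Fl), (∀ j < n, (y j).shape = (p j).shape) ∧
    DAngA n y f g F G ∧ dVol n y f g F G = W} (2 * π * v.re) ∧
  ∀ (y : ℕ → AB) (f g F G : ℕ → Fl) (t : ℕ → FT) (x : ℕ → Pool.Agent.Y482.Cv.Piece),
    (∀ j < n, (y j).shape = (p j).shape) → DAngA n y f g F G → dVol n y f g F G = 2 * π * v.re →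
    (∀ j < n, (t j).angles = ofAB (y j)) → DFlat n 0 t x →
    ∃ k : ℤ, csumD n t f g F G x =
      2 * π * I * (v - π * I / 4 * ∑ j ∈ range n, (((p j).shape.ws : ℤ) : ℂ)) + k * (π : ℂ) ^ 2

/-- GD3: near `χ = 0` (`geod3`, `uniD`, `crit_of3`, `Pool.Agent.Y482.Cv.blk`) -/
def S_GD3 : Prop := S_TCS → S_CSG → ∀ (ρ τ κ cc : ℝ) (s dl : ℂ → ℂ → ℂ), KD ρ τ κ cc s dl →
  ∀ (ρ₀ c C : ℝ) (s3 dl3 : ℂ → ℂ → ℂ → ℂ), SD3 ρ₀ c C s3 dl3 →
    ∀ (n : ℕ) (m : ℤ) (p : ℕ → PB) (χ : ℂ), 1 ≤ n →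
      (∀ j < n, (p j).bl = false ∧ (p j).Crt s ρ τ ∧ (p j).rz ∈ Rc ρ τ) → ‖χ‖ < 1 / 10 →
      RCrit3F s3 ρ₀ n (fun j => (p j).wt) (fun j => (p j).gs s) m (fun j => (p j).rz) χ →
      GoodD n m p (RVal3 s3 n (fun j => (p j).wt) m (fun j => (p j).rz) χ +
        ∑ j ∈ range n, (p j).vl s)

/-- GDZ: near `χ₀` (`DR.geod`, `uniD`, `DR.crit_of`, `Pool.Agent.Y482.Cv.blkz`) -/
def S_GDZ : Prop := S_TCS → S_CSG → S_S0P → ∀ (ρ τ κ cc : ℝ) (s dl : ℂ → ℂ → ℂ),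
  KD ρ τ κ cc s dl → ∀ χ₀ : ℂ, Zr χ₀ → ∃ ε : ℝ, 0 < ε ∧ ∀ ρ₀ c C : ℝ, SDZ χ₀ ρ₀ c C szz dzz →
    ∀ (n : ℕ) (m : ℤ) (p : ℕ → PB) (χ : ℂ), 1 ≤ n →
      (∀ j < n, (p j).bl = false ∧ (p j).Crt s ρ τ ∧ (p j).rz ∈ Rc ρ τ ∧ ‖(p j).rz‖ ≤ ε) →
      ‖χ - χ₀‖ ≤ ε →
      RCritF szz χ₀ ρ₀ n (fun j => (p j).wt) (fun j => (p j).gs s) m (fun j => (p j).rz) χ →
      GoodD n m p (RVal3 szz n (fun j => (p j).wt) m (fun j => (p j).rz) χ +
        ∑ j ∈ range n, (p j).vl s)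

/-- GDA: the ring with its axis (`geoda`, `uniA`, `axis_facts`, `Pool.Agent.Y482.Cv.blk`) -/
def S_GDA : Prop := S_TCS → S_CSG → ∀ (ρ τ κ cc : ℝ) (s dl : ℂ → ℂ → ℂ), KD ρ τ κ cc s dl →
  ∀ (ρ₀ c C : ℝ) (s3 dl3 : ℂ → ℂ → ℂ → ℂ), SD3 ρ₀ c C s3 dl3 →
    ∀ (n : ℕ) (p : ℕ → PB), 1 ≤ n →
      (∀ j < n, (p j).bl = false ∧ (p j).Crt s ρ τ ∧ (p j).rz ∈ Rc ρ τ) →
      RCrit0F s3 ρ₀ n (fun j => (p j).wt) (fun j => (p j).gs s) (fun j => (p j).rz) →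
      GoodA n p (Pool.Agent.Y482.Ph.RVal0 s3 n (fun j => (p j).wt) (fun j => (p j).rz) +
        ∑ j ∈ range n, (p j).vl s)

/-- EXF: existence of flattenings of the ring of trees (blocks as in `Pool.Agent.Y482.Cv.Lab`, trees
as in `Pool.Agent.TH563.CV.Sum`, `flat`; the angles `y j` are arbitrary) -/
def S_EXF : Prop := ∀ (n : ℕ) (c : ℤ) (y : ℕ → AB), 1 ≤ n →
  ∃ (t : ℕ → FT) (x : ℕ → Pool.Agent.Y482.Cv.Piece), (∀ j < n, (t j).angles = ofAB (y j)) ∧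
    DFlat n c t x

/-- EXPR: expansions and the factor of the exact formula -/
def S_EXPR : Prop := ∀ (ts : List (Tb × Tb)) (m : ℤ) (a : ℕ → ℂ) (v : ℂ) (y : ℕ → ℂ), y 0 ≠ 0 →
  EXY a v y → ∃ y' : ℕ → ℂ, y' 0 ≠ 0 ∧
    EXY (fun N => pzD N ts m * ((N : ℂ) ^ (2 * nel ts) * (-1) ^ (N * nel ts))⁻¹ * a N)
      (v - π * I / 4 * (wsl ts : ℤ)) y'

end Pool.Agent.Y481.DX
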