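import Pool.Agent.Y481.DX.Find

/-!
# Rings of trees: the expansion with the complex volume, absolute constants
-/

set_option autoImplicit false

namespace Pool.Agent.Y481.DX

open Finset Filter Topology Metric
open Pool.Agent.W711.HT hiding XX
open Pool.Agent.Y472
open Pool.Agent.Y472.H (fin_ex)
open Pool.Agent.Y481 (itI itN Sep cw wts)
open Pool.Agent.Y481.DR
open Pool.Agent.TH563.UV (Tb op XX PB AB kb)
open Pool.Agent.W719.AR (Fl kp)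
open Pool.Agent.W719.AX (UX EXY)
open Pool.Agent.Y482.Ph (RVal0)
open Pool.Agent.Y482.DX (CVG PC PAx)
open scoped Real

/-- the hypotheses on the ring of trees -/
def Hts (K M : ℝ) (D : ℕ) (ts : List (Tb × Tb)) : Prop :=
  NoC ts ∧ ∀ p ∈ ts, p.1.Below K ∧ p.2.Below K ∧ p.1.nc ≤ D ∧ p.2.nc ≤ D ∧
    M ≤ |(p.1.wt : ℝ)| ∧ M ≤ |(p.2.wt : ℝ)|

lemma Hts.mono {K M M' : ℝ} {D : ℕ} {ts : List (Tb × Tb)} (h : M ≤ M') (hts : Hts K M' D ts) :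
    Hts K M D ts := by
  refine ⟨hts.1, fun p hp => ?_⟩
  obtain ⟨h1, h2, h3, h4, h5, h6⟩ := hts.2 p hp
  exact ⟨h1, h2, h3, h4, h.trans h5, h.trans h6⟩

/-- the functions of the trees with at most `D` children -/
structure TFn (ρ τ K R₀ B₀ : ℝ) (s : ℂ → ℂ → ℂ) (D : ℕ) (F : Tb → ℂ → ℂ)
    (A : Tb → ℕ → ℂ → ℂ) : Prop where
  R0 : 0 < R₀
  Rt : R₀ ≤ τ
  tr : τ ≤ ρ
  B0 : 0 < B₀
  dg : ∀ t : Tb, t.Below K → t.nc ≤ D →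
    DGX R₀ B₀ (nx F t).2 (fun ψ => F t ψ - F t 0) (A t)
  cr : ∀ t : Tb, t.Below K → t.nc ≤ D → ∀ ψ ∈ Rc ρ τ, ∃ p : PB, p.shape = t ∧ p.rz = ψ ∧
    p.Crt s ρ τ ∧ p.vl s = F t ψ ∧ HasDerivAt (F t) (p.gs s) ψ

section

variable {ρ τ K R₀ B₀ : ℝ} {s : ℂ → ℂ → ℂ} {D : ℕ} {F : Tb → ℂ → ℂ} {A : Tb → ℕ → ℂ → ℂ}
  {ts : List (Tb × Tb)} {M : ℝ}

lemma Hts.get (hts : Hts K M D ts) {j : ℕ} (hj : j < 2 * ts.length) :
    (tj ts j).Below K ∧ (tj ts j).nc ≤ D ∧ M ≤ |((tj ts j).wt : ℝ)| ∧ (tj ts j).bl = false := by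
  refine tj_get ts (fun t => t.Below K ∧ t.nc ≤ D ∧ M ≤ |(t.wt : ℝ)| ∧ t.bl = false)
    (fun p hp => ?_) hj
  obtain ⟨h1, h2, h3, h4, h5, h6⟩ := hts.2 p hp
  exact ⟨⟨h1, h3, h5, (hts.1 p hp).1⟩, ⟨h2, h4, h6, (hts.1 p hp).2⟩⟩

lemma prep (hT : TFn ρ τ K R₀ B₀ s D F A) (hts : Hts K M D ts) :
    (∀ j < 2 * ts.length, DGX R₀ B₀ (vy (nxl F ts) j)
      (fun ψ => F (tj ts j) ψ - F (tj ts j) 0) (A (tj ts j))) ∧
    (∀ j < 2 * ts.length, M ≤ |(cw (wl (nxl F ts)) j : ℝ)|) ∧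
    ∀ z : ℕ → ℂ, (∀ j < 2 * ts.length, z j ∈ Rc R₀ R₀) → ∃ p : ℕ → PB,
      Tpf s ρ τ F ts z p ∧ (∀ j < 2 * ts.length, (p j).bl = false ∧ (p j).rz ∈ Rc ρ τ) ∧
      (∀ j < 2 * ts.length, cw (wl (nxl F ts)) j = (p j).wt) ∧
      (∀ j < 2 * ts.length, deriv (fun ψ => F (tj ts j) ψ - F (tj ts j) 0) (z j) =
        (p j).gs s) := by
  have hP := fun {j : ℕ} (hj : j < 2 * ts.length) => hts.get hj
  refine ⟨fun j hj => ?_, fun j hj => ?_, fun z hz => ?_⟩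
  · rw [vy_nxl F ts hj]
    exact hT.dg _ (hP hj).1 (hP hj).2.1
  · rw [cw_nxl F ts hj]
    exact (hP hj).2.2.1
  · have hsub : Rc R₀ R₀ ⊆ Rc ρ τ := by
      intro w hw
      exact ⟨hw.1.trans_le (hT.Rt.trans hT.tr), hw.2.trans_le hT.Rt⟩
    have hex : ∀ j, ∃ p : PB, j < 2 * ts.length → p.shape = tj ts j ∧ p.rz = z j ∧ p.Crt s ρ τ ∧
        p.vl s = F (tj ts j) (z j) ∧ HasDerivAt (F (tj ts j)) (p.gs s) (z j) := by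
      intro j
      by_cases hj : j < 2 * ts.length
      · obtain ⟨p, hp⟩ := hT.cr _ (hP hj).1 (hP hj).2.1 (z j) (hsub (hz j hj))
        exact ⟨p, fun _ => hp⟩
      · exact ⟨.vx false 0 0, fun h => absurd h hj⟩
    choose p hp using hex
    refine ⟨p, ⟨fun j hj => (hp j hj).1, fun j hj => (hp j hj).2.1, fun j hj => (hp j hj).2.2.1,
      fun j hj => (hp j hj).2.2.2.1, fun j hj => (hp j hj).2.2.2.2⟩, ?_, ?_, ?_⟩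
    · intro j hj
      refine ⟨?_, ?_⟩
      · rw [← shape_bl, (hp j hj).1]
        exact (hP hj).2.2.2
      · rw [(hp j hj).2.1]
        exact hsub (hz j hj)
    · intro j hj
      rw [cw_nxl F ts hj, ← (hp j hj).1, shape_wt]
    · intro j hj
      rw [deriv_sub_const]
      exact (hp j hj).2.2.2.2.deriv

end

/-- everything that the three cases need -/
structure Base (ρ τ κ cc K : ℝ) (s dl : ℂ → ℂ → ℂ) : Prop where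
  kd : KD ρ τ κ cc s dl
  exdx : S_EXDX
  scl : S_SCL
  axpd : S_AXPD
  sca : S_SCA
  expr : S_EXPR
  s0p : S_S0P

section

variable {ρ τ κ cc K R₀ B₀ : ℝ} {s dl : ℂ → ℂ → ℂ} {D : ℕ} {F : Tb → ℂ → ℂ}
  {A : Tb → ℕ → ℂ → ℂ}

/-- `k` and `m` fixed -/
theorem caseZ (hb : Base ρ τ κ cc K s dl) (hT : TFn ρ τ K R₀ B₀ s D F A) (hZ : XLZXFc)
    (hM : S_MXZF) (k m : ℕ) (hk : 1 ≤ k) (hkm : ¬ (k = 1 ∧ m = 0)) :
    ∃ M : ℝ, ∀ ts : List (Tb × Tb), ts.length = k → Hts K M D ts → CxD ts m := by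
  obtain ⟨χ₀, ρ₀, c, C, hZr, hSD, H⟩ := hM hZ k m hk (by positivity) (by
    rintro ⟨h1, h2⟩
    exact hkm ⟨h1, by exact_mod_cast h2⟩)
  obtain ⟨ε, hε, hG⟩ := Pool.Agent.Y482.DX.cvZ hb.s0p geod hb.kd hZr
  obtain ⟨M, hM⟩ := H R₀ B₀ ε hT.R0 hT.B0 hε
  refine ⟨M, fun ts hl hts => ?_⟩
  subst hl
  obtain ⟨h1, h2, h3⟩ := prep hT hts
  obtain ⟨z, χ, y, hRC, hz, hχ, hy, hE⟩ := hM (nxl F ts) _ _ (nxl_len F ts) h1 h2
  obtain ⟨p, hp, hp1, hp2, hp3⟩ := h3 z fun j hj => (hz j hj).1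
  have hn : 0 < 2 * ts.length := by omega
  have hRC' : RCritF szz χ₀ ρ₀ (2 * ts.length) (fun j => (p j).wt) (fun j => (p j).gs s) m
      (fun j => (p j).rz) χ :=
    rcf_congr hn hp2 hp3 (fun j hj => (hp.rz j hj).symm) hRC
  have hG' := hG ρ₀ c C hSD (2 * ts.length) m (fun j => p (rv (2 * ts.length) j)) (shp ts) χ
    (by omega)
    (fun j hj => ⟨(hp1 _ (rv_lt hn j)).1, hp.cr _ (rv_lt hn j), (hp1 _ (rv_lt hn j)).2, by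
      rw [hp.rz _ (rv_lt hn j)]
      exact (hz _ (rv_lt hn j)).2⟩) (fun j _ => hp.sh _ (rv_lt hn j)) hχ (rcf_rev hSD hn hRC')
  rw [rval_rev hSD hn hRC', ← rval_congr hn hp2
    (fun j hj => ((hp.rz j hj).symm : z j = (p j).rz))] at hG'
  exact cxd_of hb.exdx hb.scl hb.expr (List.length_pos_iff.1 hk) hts.1 hp hG' hy hE

/-- near `χ = 0` -/
lemma case3 (hb : Base ρ τ κ cc K s dl) {ρ₀ c C : ℝ} {s3 dl3 : ℂ → ℂ → ℂ → ℂ}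
    (hSD : SD3 ρ₀ c C s3 dl3) {ts : List (Tb × Tb)} {m : ℤ} {M : ℝ} (hk : 1 ≤ ts.length)
    (hT : TFn ρ τ K R₀ B₀ s D F A) (hts : Hts K M D ts) {z : ℕ → ℂ} {χ : ℂ} {y : ℕ → ℂ}
    (hRC : RCrit3F s3 ρ₀ (2 * ts.length) (cw (wl (nxl F ts)))
      (fun j => deriv (fun ψ => F (tj ts j) ψ - F (tj ts j) 0) (z j)) m z χ)
    (hχ : ‖χ‖ < 1 / 10) (hz : ∀ j < 2 * ts.length, z j ∈ Rc R₀ R₀) (hy : y 0 ≠ 0)
    (hE : EXY (fun N => ES N (nxl F ts) m)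
      (RVal3 s3 (2 * ts.length) (cw (wl (nxl F ts))) m z χ +
        ∑ j ∈ range (2 * ts.length), (F (tj ts j) (z j) - F (tj ts j) 0)) y) : CxD ts m := by
  obtain ⟨h1, h2, h3⟩ := prep hT hts
  obtain ⟨p, hp, hp1, hp2, hp3⟩ := h3 z hz
  have hn : 0 < 2 * ts.length := by omega
  have hRC' : RCrit3F s3 ρ₀ (2 * ts.length) (fun j => (p j).wt) (fun j => (p j).gs s) m
      (fun j => (p j).rz) χ :=
    r3_congr hn hp2 hp3 (fun j hj => (hp.rz j hj).symm) hRC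
  have hG' := Pool.Agent.Y482.DX.cv3 geod3 hb.kd hSD (n := 2 * ts.length) (m := m)
    (p := fun j => p (rv (2 * ts.length) j)) (sh := shp ts) (χ := χ) (by omega)
    (fun j hj => ⟨(hp1 _ (rv_lt hn j)).1, hp.cr _ (rv_lt hn j), (hp1 _ (rv_lt hn j)).2⟩)
    (fun j _ => hp.sh _ (rv_lt hn j)) hχ (r3_rev hSD hn hRC')
  rw [rval3_rev hSD hn hRC', ← rval_congr hn hp2
    (fun j hj => ((hp.rz j hj).symm : z j = (p j).rz))] at hG'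
  exact cxd_of hb.exdx hb.scl hb.expr (List.length_pos_iff.1 hk) hts.1 hp hG' hy hE

/-- `|m|` large -/
theorem caseM (hb : Base ρ τ κ cc K s dl) (hT : TFn ρ τ K R₀ B₀ s D F A) (hX : XLXFc)
    (hF : S_FARF) (hN : S_NRF) (hM : S_MXF) (k : ℕ) (hk : 1 ≤ k) :
    ∃ M : ℝ, ∀ (ts : List (Tb × Tb)) (m : ℤ), ts.length = k → Hts K M D ts → M ≤ |(m : ℝ)| →
      CxD ts m := by
  obtain ⟨ρ₀, c, C, s3, dl3, hSD, H⟩ := hM hX hF hN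
  obtain ⟨M, hM⟩ := H R₀ B₀ hT.R0 hT.B0 k hk
  refine ⟨M, fun ts m hl hts hm => ?_⟩
  subst hl
  obtain ⟨h1, h2, h3⟩ := prep hT hts
  obtain ⟨z, χ, y, hRC, hχ, hz, hy, hE⟩ := hM (nxl F ts) _ _ m (nxl_len F ts) h1 h2 hm
  exact case3 hb hSD hk hT hts hRC hχ hz hy hE

/-- many vertices -/
theorem caseN (hb : Base ρ τ κ cc K s dl) (hT : TFn ρ τ K R₀ B₀ s D F A) {ρ₀ c C : ℝ}
    {s3 dl3 : ℂ → ℂ → ℂ → ℂ} (hSD : SD3 ρ₀ c C s3 dl3) (hX : XFAXFc ρ₀ s3) (hM : S_MXNF) :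
    ∃ (K' : ℕ) (M : ℝ), ∀ (ts : List (Tb × Tb)) (m : ℤ), 1 ≤ ts.length → K' ≤ ts.length →
      Hts K M D ts → CxD ts m := by
  obtain ⟨K', M, H⟩ := hM ρ₀ c C s3 dl3 hSD hX R₀ B₀ hT.R0 hT.B0
  refine ⟨K', M, fun ts m hk hK hts => ?_⟩
  obtain ⟨h1, h2, h3⟩ := prep hT hts
  obtain ⟨z, χ, y, hχ, hRC, hz, hy, hE⟩ := H ts.length hK (nxl F ts) _ _ m (nxl_len F ts) h1 h2
  exact case3 hb hSD hk hT hts hRC hχ hz hy hE

/-- the ring with its axis -/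
theorem caseA (hb : Base ρ τ κ cc K s dl) (hT : TFn ρ τ K R₀ B₀ s D F A) (hX : XLXFc)
    (hF : S_FARF) (hN : S_NRF) (hM : S_MXAF) (k : ℕ) (hk : 1 ≤ k) :
    ∃ M : ℝ, ∀ (ts : List (Tb × Tb)) (m : ℤ), ts.length = k → Hts K M D ts → CxA ts m := by
  obtain ⟨ρ₀, c, C, s3, dl3, hSD, H⟩ := hM hX hF hN
  obtain ⟨M, hM⟩ := H R₀ B₀ hT.R0 hT.B0 k hk
  refine ⟨M, fun ts m hl hts => ?_⟩
  subst hl
  obtain ⟨h1, h2, h3⟩ := prep hT hts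
  obtain ⟨z, y, hRC, hz, hy, hE⟩ := hM (nxl F ts) _ _ m (nxl_len F ts) h1 h2
  obtain ⟨p, hp, hp1, hp2, hp3⟩ := h3 z hz
  have hn : 0 < 2 * ts.length := by omega
  have hRC' : RCrit0F s3 ρ₀ (2 * ts.length) (fun j => (p j).wt) (fun j => (p j).gs s)
      (fun j => (p j).rz) :=
    r0_congr hn hp2 hp3 (fun j hj => (hp.rz j hj).symm) hRC
  have hG' := Pool.Agent.Y482.DX.cvA geoda hb.kd hSD (n := 2 * ts.length)
    (p := fun j => p (rv (2 * ts.length) j)) (sh := shp ts) (by omega)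
    (fun j hj => ⟨(hp1 _ (rv_lt hn j)).1, hp.cr _ (rv_lt hn j), (hp1 _ (rv_lt hn j)).2⟩)
    (fun j _ => hp.sh _ (rv_lt hn j)) (r0_rev hSD hn hRC')
  rw [rval0_rev hSD hn hRC', ← rval0_congr hn hp2
    (fun j hj => ((hp.rz j hj).symm : z j = (p j).rz))] at hG'
  exact cxa_of hb.axpd hb.sca hb.expr (List.length_pos_iff.1 hk) hts.1 hp hG' hy hE

/-- a constant depending on `k`, all numbers `m ≥ 0` -/
theorem caseK (hZ : ∀ (k m : ℕ), 1 ≤ k → ¬ (k = 1 ∧ m = 0) → ∃ M : ℝ, ∀ ts : List (Tb × Tb),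
      ts.length = k → Hts K M D ts → CxD ts m) (k : ℕ) (hk : 1 ≤ k)
    (hM : ∃ M : ℝ, ∀ (ts : List (Tb × Tb)) (m : ℤ), ts.length = k → Hts K M D ts →
      M ≤ |(m : ℝ)| → CxD ts m) :
    ∃ M : ℝ, ∀ (ts : List (Tb × Tb)) (m : ℕ), ts.length = k → Hts K M D ts →
      ¬ (k = 1 ∧ m = 0) → CxD ts m := by
  obtain ⟨M1, h1⟩ := hM
  obtain ⟨M2, h2⟩ := fin_ex (P := fun m M => ¬ (k = 1 ∧ m = 0) → ∀ ts : List (Tb × Tb),
    ts.length = k → Hts K M D ts → CxD ts m) (by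
      intro m
      by_cases h : k = 1 ∧ m = 0
      · exact ⟨0, fun h' => absurd h h'⟩
      · obtain ⟨M, hM⟩ := hZ k m hk h
        exact ⟨M, fun _ => hM⟩)
    (fun m M M' hMM' h h3 ts hl hts => h h3 ts hl (hts.mono hMM')) ⌈M1⌉₊
  refine ⟨max M1 M2, fun ts m hl hts hkm => ?_⟩
  by_cases hm : m < ⌈M1⌉₊
  · exact h2 m hm hkm ts hl (hts.mono (le_max_right _ _))
  · have h3 : M1 ≤ |((m : ℤ) : ℝ)| := by
      have h4 := Nat.le_ceil M1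
      have h5 : (⌈M1⌉₊ : ℝ) ≤ m := by exact_mod_cast not_lt.1 hm
      have h6 : ((m : ℤ) : ℝ) = (m : ℝ) := by push_cast; rfl
      rw [h6]
      exact (h4.trans h5).trans (le_abs_self _)
    exact h1 ts m hl (hts.mono (le_max_left _ _)) h3

/-- an absolute constant -/
theorem caseAbs (hK : ∀ k : ℕ, 1 ≤ k → ∃ M : ℝ, ∀ (ts : List (Tb × Tb)) (m : ℕ),
      ts.length = k → Hts K M D ts → ¬ (k = 1 ∧ m = 0) → CxD ts m)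
    (hN : ∃ (K' : ℕ) (M : ℝ), ∀ (ts : List (Tb × Tb)) (m : ℤ), 1 ≤ ts.length → K' ≤ ts.length →
      Hts K M D ts → CxD ts m) :
    ∃ M : ℝ, ∀ (ts : List (Tb × Tb)) (m : ℕ), ts ≠ [] → ¬ (ts.length = 1 ∧ m = 0) →
      Hts K M D ts → CxD ts m := by
  obtain ⟨K', M1, h1⟩ := hN
  obtain ⟨M2, h2⟩ := fin_ex (P := fun k M => 1 ≤ k → ∀ (ts : List (Tb × Tb)) (m : ℕ),
    ts.length = k → Hts K M D ts → ¬ (k = 1 ∧ m = 0) → CxD ts m) (by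
      intro k
      by_cases h : 1 ≤ k
      · obtain ⟨M, hM⟩ := hK k h
        exact ⟨M, fun _ => hM⟩
      · exact ⟨0, fun h' => absurd h' h⟩)
    (fun k M M' hMM' h h3 ts m hl hts hkm => h h3 ts m hl (hts.mono hMM') hkm) K'
  refine ⟨max M1 M2, fun ts m hne hkm hts => ?_⟩
  have hk : 1 ≤ ts.length := List.length_pos_iff.2 hne
  by_cases hK : K' ≤ ts.length
  · exact h1 ts m hk hK (hts.mono (le_max_left _ _))
  · exact h2 _ (not_le.1 hK) hk ts m rfl (hts.mono (le_max_right _ _)) hkm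

end

/-- the final statement, closed rings -/
def S_FINDX : Prop := ∃ K : ℝ, 0 < K ∧ ∀ D : ℕ, ∃ M : ℝ, ∀ (ts : List (Tb × Tb)) (m : ℕ),
  ts ≠ [] → ¬ (ts.length = 1 ∧ m = 0) → Hts K M D ts → CxD ts m

/-- the final statement, rings with their axes -/
def S_FINAX : Prop := ∃ K : ℝ, 0 < K ∧ ∀ (D k : ℕ), 1 ≤ k → ∃ M : ℝ,
  ∀ (ts : List (Tb × Tb)) (m : ℤ), ts.length = k → Hts K M D ts → CxA ts m

/-- the assembly -/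
theorem findx_of (hTR : S_TRUX) (hEXDX : S_EXDX) (hSCL : S_SCL) (hAXPD : S_AXPD) (hSCA : S_SCA)
    (hEXPR : S_EXPR) (hS0P : S_S0P) (hZ : XLZXFc) (hMXZF : S_MXZF) (hX : XLXFc) (hF : S_FARF)
    (hNR : S_NRF) (hMXF : S_MXF) (hMXAF : S_MXAF)
    (hSD : ∃ (ρ₀ c C : ℝ) (s3 dl3 : ℂ → ℂ → ℂ → ℂ), SD3 ρ₀ c C s3 dl3 ∧ XFAXFc ρ₀ s3)
    (hMXNF : S_MXNF) : S_FINDX ∧ S_FINAX := by
  obtain ⟨ρ, τ, κ, cc, s, dl, hKD, K, hK, hTr⟩ := hTR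
  obtain ⟨ρ₀, c, C, s3, dl3, hSD, hXF⟩ := hSD
  have hb : Base ρ τ κ cc K s dl := ⟨hKD, hEXDX, hSCL, hAXPD, hSCA, hEXPR, hS0P⟩
  have hTF : ∀ D : ℕ, ∃ (R₀ B₀ : ℝ) (F : Tb → ℂ → ℂ) (A : Tb → ℕ → ℂ → ℂ),
      TFn ρ τ K R₀ B₀ s D F A := by
    intro D
    obtain ⟨R₀, B₀, hR₀, hR₀τ, hB₀, hT⟩ := hTr D
    choose! F A hF1 hF2 using fun (t : Tb) (h : t.Below K ∧ t.nc ≤ D) => hT t h.1 h.2
    exact ⟨R₀, B₀, F, A, hR₀, hR₀τ, hKD.hτ.2, hB₀, fun t h1 h2 => hF1 t ⟨h1, h2⟩,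
      fun t h1 h2 => hF2 t ⟨h1, h2⟩⟩
  refine ⟨⟨K, hK, fun D => ?_⟩, ⟨K, hK, fun D k hk => ?_⟩⟩
  · obtain ⟨R₀, B₀, F, A, hT⟩ := hTF D
    exact caseAbs (fun k hk => caseK (fun k m hk hkm => caseZ hb hT hZ hMXZF k m hk hkm) k hk
      (caseM hb hT hX hF hNR hMXF k hk)) (caseN hb hT hSD hXF hMXNF)
  · obtain ⟨R₀, B₀, F, A, hT⟩ := hTF D
    exact caseA hb hT hX hF hNR hMXAF k hk

end Pool.Agent.Y481.DX
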