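import Pool.Agent.Y481.DX.Fin
import Pool.Agent.Y481.DR.Final
import Pool.Agent.Y721.DX.Trux
import Pool.Agent.Y274.DX.Exdx
import Pool.Agent.Y100.DX.Axp
import Pool.Agent.Y785.DX.MXZ
import Pool.Agent.Y785.DX.MXN
import Pool.Agent.Y482.DX.Nrf
import Pool.Agent.Y482.DX.Mxf
import Pool.Agent.Y809.DX.Gpaf
import Pool.Agent.Y833.DX.Fin
import Pool.Agent.Y470.DX.PotF
import Pool.Agent.Y470.DX.FRDF
import Pool.Agent.Y430.DX.Xlxf
import Pool.Agent.Y210.DX.UQZF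
import Pool.Agent.Y914.DX.XPXF
import Pool.Agent.Y977.DX.Expr
import Pool.Agent.Y472.J.Fin

/-!
# Rings of trees: expansions to all orders with the complex volume
-/

set_option autoImplicit false

namespace Pool.Agent.Y481.DX

open Pool.Agent.Y472
open Pool.Agent.Y481.DR

/-- the growth near `χ₀` -/
theorem xlfc : XLFc := by
  have hS0 : S_S0P := Pool.Agent.Y710.CG.s0p
  have hKB : KBZc := Pool.Agent.Y68.CG.kbz Pool.Agent.Y238.CG.pf Pool.Agent.Y125.CG.cnb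
    Pool.Agent.Y991.CG.lmi
  have hSDc := Pool.Agent.Y641.CG.sdz hS0
  have hLOc : LOZc := Pool.Agent.Y319.CG.loz Pool.Agent.Y238.CG.pf Pool.Agent.Y954.CG.mpz
    Pool.Agent.Y125.CG.cnb Pool.Agent.Y991.CG.lmi hS0 hSDc
  have hMWc : MWZc := Pool.Agent.Y232.CG.mwz hKB hLOc hSDc
  exact Pool.Agent.Y710.DR.xlf Pool.Agent.Y978.DR.potf Pool.Agent.Y784.CBE.cre
    Pool.Agent.Y232.CBE.ele hMWc hKB

theorem xlxfc : XLXFc := Pool.Agent.Y430.DX.xlxf Pool.Agent.Y470.DX.pot3f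

theorem both : S_FINDX ∧ S_FINAX := by
  obtain ⟨ρ₀, c, C, s, dl, hS⟩ := Pool.Agent.Y641.CB.sd3
  exact findx_of Pool.Agent.Y721.DX.t_TRUX Pool.Agent.Y274.DX.exdx Pool.Agent.Y407.DR.t_scl
    Pool.Agent.Y100.DX.t_axpd Pool.Agent.Y100.DX.t_sca Pool.Agent.Y977.DX.expr
    Pool.Agent.Y710.CG.s0p (Pool.Agent.Y914.DX.xpxf Pool.Agent.Y210.DX.uqzf xlfc xlxfc)
    Pool.Agent.Y785.DX.mxzf xlxfc Pool.Agent.Y482.DX.t_FARF Pool.Agent.Y482.DX.t_NRF
    Pool.Agent.Y482.DX.t_MXF Pool.Agent.Y482.DX.t_MXAF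
    ⟨ρ₀, c, C, s, dl, hS, Pool.Agent.Y833.DX.xfaqf Pool.Agent.Y470.DX.potaf
      Pool.Agent.Y809.DX.gpaf Pool.Agent.Y470.DX.frdf ρ₀ c C s dl hS
      (Pool.Agent.Y472.J.kxd ρ₀ c C s dl hS)⟩ Pool.Agent.Y785.DX.mxnf

/-- **closed rings of trees: expansions to all orders, complex volume, absolute constants** -/
theorem findx : S_FINDX := both.1

/-- **rings of trees with their axes** -/
theorem finax : S_FINAX := both.2

end Pool.Agent.Y481.DX
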