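import Pool.Agent.Y481.DX.Defs2
import Pool.Agent.Y481.DR.Find
import Pool.Agent.Y472.H.Growth5
import Pool.Agent.Y482.DX.CvG

/-!
# Rings of trees: assembly of the expansions with the complex volume
-/

set_option autoImplicit false

namespace Pool.Agent.Y481.DX

open Finset Filter Topology Metric
open Pool.Agent.W711.HT hiding XX
open Pool.Agent.Y472
open Pool.Agent.Y472.H (fin_ex)
open Pool.Agent.Y481 (itI itN Sep cw wts)
open Pool.Agent.Y481.DR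
open Pool.Agent.TH563.UV (Tb op XX PB AB kb)
open Pool.Agent.TH563.UV.Arb (ofAB)
open Pool.Agent.W719.AR (Fl kp)
open Pool.Agent.W719.AX (UX EXY)
open Pool.Agent.Y482.Ph (RVal0)
open Pool.Agent.Y482.DX (CVG PC PAx)
open scoped Real

/-! ### Lists -/

section lists

variable {α : Type} (x₀ : α)

lemma flat_prodG {M : Type} [CommMonoid M] (ts : List (α × α)) (h : α → M) :
    (ts.map fun p => h p.1 * h p.2).prod =
      ∏ j ∈ range (2 * ts.length), h (((ts.map fun p => [p.1, p.2]).flatten).getD j x₀) := by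
  induction ts with
  | nil => simp
  | cons p ts ih =>
    rw [List.map_cons, List.prod_cons, ih, List.length_cons,
      show 2 * (ts.length + 1) = 2 * ts.length + 1 + 1 by ring, prod_range_succ', prod_range_succ']
    simp only [List.map_cons, List.flatten_cons, List.cons_append, List.nil_append,
      List.getD_cons_succ, List.getD_cons_zero]
    ac_rfl

lemma flat_sumG {M : Type} [AddCommMonoid M] (ts : List (α × α)) (h : α → M) :
    (ts.map fun p => h p.1 + h p.2).sum =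
      ∑ j ∈ range (2 * ts.length), h (((ts.map fun p => [p.1, p.2]).flatten).getD j x₀) := by
  induction ts with
  | nil => simp
  | cons p ts ih =>
    rw [List.map_cons, List.sum_cons, ih, List.length_cons,
      show 2 * (ts.length + 1) = 2 * ts.length + 1 + 1 by ring, sum_range_succ', sum_range_succ']
    simp only [List.map_cons, List.flatten_cons, List.cons_append, List.nil_append,
      List.getD_cons_succ, List.getD_cons_zero]
    abel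

end lists

/-- the normalizing factor -/
noncomputable def nfac (F : Tb → ℂ → ℂ) (t : Tb) (N : ℕ) : ℂ :=
  (N : ℂ) ^ (2 * t.ne) * (-1) ^ (N * t.ne) * Complex.exp (-(N * F t 0))

/-- the normalized vertices -/
noncomputable def nx (F : Tb → ℂ → ℂ) (t : Tb) : Vx := (t.wt, fun N ψ => XX t N ψ * nfac F t N)

/-- the normalized list -/
noncomputable def nxl (F : Tb → ℂ → ℂ) (ts : List (Tb × Tb)) : List (Vx × Vx) :=
  ts.map fun p => (nx F p.1, nx F p.2)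

lemma nxl_len (F : Tb → ℂ → ℂ) (ts : List (Tb × Tb)) : (nxl F ts).length = ts.length := by
  simp [nxl]

/-- the factors -/
noncomputable def ex (F : Tb → ℂ → ℂ) (ts : List (Tb × Tb)) : List ((ℕ → ℂ) × (ℕ → ℂ)) :=
  ts.map fun p => (nfac F p.1, nfac F p.2)

lemma nxl_scl (F : Tb → ℂ → ℂ) (ts : List (Tb × Tb)) : nxl F ts = scl (tvl ts) (ex F ts) := by
  induction ts with
  | nil => rfl
  | cons p ts ih =>
    simp only [nxl, scl, tvl, ex, List.map_cons, List.zipWith_cons_cons] at ih ⊢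
    rw [ih]
    rfl

lemma cw_nxl (F : Tb → ℂ → ℂ) (ts : List (Tb × Tb)) {j : ℕ} (hj : j < 2 * ts.length) :
    cw (wl (nxl F ts)) j = (tj ts j).wt := by
  have h : (wl (nxl F ts)) = ts.map fun p => (p.1.wt, p.2.wt) := by
    simp [wl, nxl, nx]
  have h2 : ((ts.map fun p : Tb × Tb => (p.1.wt, p.2.wt)).map fun p : ℤ × ℤ => [p.1, p.2]) =
      ts.map fun p => [p.1.wt, p.2.wt] := by
    simp [List.map_map, Function.comp_def]
  rw [cw, wts, h, h2]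
  exact flat_getD _ ts (fun t => t.wt) 0 hj

lemma vy_nxl (F : Tb → ℂ → ℂ) (ts : List (Tb × Tb)) {j : ℕ} (hj : j < 2 * ts.length) :
    vy (nxl F ts) j = (nx F (tj ts j)).2 := by
  have h2 : ((nxl F ts).map fun p : Vx × Vx => [p.1.2, p.2.2]) =
      ts.map fun p => [(nx F p.1).2, (nx F p.2).2] := by
    simp [nxl, List.map_map, Function.comp_def]
  rw [vy, h2]
  exact flat_getD _ ts (fun t => (nx F t).2) _ hj

/-- the product of the factors -/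
lemma ex_prod (F : Tb → ℂ → ℂ) (ts : List (Tb × Tb)) (N : ℕ) :
    ((ex F ts).map fun c => c.1 N * c.2 N).prod =
      (N : ℂ) ^ (2 * nel ts) * (-1) ^ (N * nel ts) *
        Complex.exp (-(N * ∑ j ∈ range (2 * ts.length), F (tj ts j) 0)) := by
  have h1 : ((ex F ts).map fun c => c.1 N * c.2 N) =
      ts.map fun p => nfac F p.1 N * nfac F p.2 N := by
    simp [ex, List.map_map, Function.comp_def]
  have h2 : nel ts = ∑ j ∈ range (2 * ts.length), (tj ts j).ne :=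
    flat_sumG (Tb.vx false 0) ts (fun t => t.ne)
  rw [h1, flat_prodG (Tb.vx false 0) ts (fun t => nfac F t N)]
  change ∏ j ∈ range (2 * ts.length), nfac F (tj ts j) N = _
  unfold nfac
  rw [prod_mul_distrib, prod_mul_distrib, ← Complex.exp_sum, prod_pow_eq_pow_sum,
    prod_pow_eq_pow_sum, h2, mul_sum, mul_sum, mul_sum, sum_neg_distrib]

/-! ### Congruence and reversal -/

lemma op_of_sym {ρ₀ c C : ℝ} {s dl : ℂ → ℂ → ℂ → ℂ} (hSD : SD3 ρ₀ c C s dl) {χ : ℂ}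
    (h1 : χ ∈ Rc ρ₀ ρ₀) : (∀ x ∈ Rc ρ₀ ρ₀, ∀ y ∈ Rc ρ₀ ρ₀,
      deriv (fun w => s x w χ) y = deriv (fun w => s w x χ) y) ∧
    ∀ x ∈ Rc ρ₀ ρ₀, ∀ y ∈ Rc ρ₀ ρ₀, deriv (fun w => s x y w) χ = deriv (fun w => s y x w) χ := by
  constructor
  · intro x hx y hy
    refine Filter.EventuallyEq.deriv_eq ?_
    filter_upwards [(Rc_op ρ₀ ρ₀).mem_nhds hy] with w hw
    exact hSD.sym x hx w hw χ h1
  · intro x hx y hy
    refine Filter.EventuallyEq.deriv_eq ?_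
    filter_upwards [(Rc_op ρ₀ ρ₀).mem_nhds h1] with w hw
    exact hSD.sym x hx y hy w hw

/-- the equations at the vertices in the opposite order -/
lemma vt_rev {ρ₀ c C : ℝ} {s dl : ℂ → ℂ → ℂ → ℂ} (hSD : SD3 ρ₀ c C s dl) {n : ℕ}
    (hn : 0 < n) {a : ℕ → ℤ} {g : ℕ → ℂ} {z : ℕ → ℂ} {χ : ℂ} (h1 : χ ∈ Rc ρ₀ ρ₀)
    (h2 : ∀ j < n, z j ∈ Rc ρ₀ ρ₀ ∧ 0 < (z j).im ∧ ‖z j‖ ≤ 1 / 10 ∧
      Complex.I * a ((j + 1) % n) * z ((j + 1) % n) / (2 * π) + Complex.I + g ((j + 1) % n) +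
      deriv (fun w => s (z j) w χ) (z ((j + 1) % n)) +
      deriv (fun w => s w (z (((j + 1) % n + 1) % n)) χ) (z ((j + 1) % n)) = 0) :
    ∀ j < n, z (rv n j) ∈ Rc ρ₀ ρ₀ ∧ 0 < (z (rv n j)).im ∧ ‖z (rv n j)‖ ≤ 1 / 10 ∧
      Complex.I * a (rv n ((j + 1) % n)) * z (rv n ((j + 1) % n)) / (2 * π) + Complex.I +
      g (rv n ((j + 1) % n)) +
      deriv (fun w => s (z (rv n j)) w χ) (z (rv n ((j + 1) % n))) +
      deriv (fun w => s w (z (rv n (((j + 1) % n + 1) % n))) χ) (z (rv n ((j + 1) % n))) = 0 := by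
  have hz : ∀ j < n, z j ∈ Rc ρ₀ ρ₀ := fun j hj => (h2 j hj).1
  obtain ⟨hd, -⟩ := op_of_sym hSD h1
  intro j hj
  have hj1 : (j + 1) % n < n := Nat.mod_lt _ hn
  obtain ⟨q1, q2, q3, -⟩ := h2 _ (rv_lt hn j)
  refine ⟨q1, q2, q3, ?_⟩
  have e1 : rv n (((j + 1) % n + 1) % n) = n - 1 - (j + 1) % n := rv_succ hj1
  have e2 : rv n ((j + 1) % n) = (n - 1 - (j + 1) % n + 1) % n := rv_eq hj1
  have e3 : rv n j = (rv n ((j + 1) % n) + 1) % n := by
    rw [rv_eq hj, rv_succ hj]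
  have hi : n - 1 - (j + 1) % n < n := by omega
  obtain ⟨-, -, -, h4⟩ := h2 _ hi
  rw [← e2, ← e3] at h4
  rw [e1]
  have y1 := hz _ (rv_lt hn ((j + 1) % n))
  have y2 := hz _ (rv_lt hn j)
  have y3 := hz _ hi
  rw [hd _ y2 _ y1, ← hd _ y3 _ y1]
  linear_combination h4

lemma r3_rev {ρ₀ c C : ℝ} {s dl : ℂ → ℂ → ℂ → ℂ} (hSD : SD3 ρ₀ c C s dl) {n : ℕ}
    (hn : 0 < n) {a : ℕ → ℤ} {g : ℕ → ℂ} {m : ℤ} {z : ℕ → ℂ} {χ : ℂ}
    (h : RCrit3F s ρ₀ n a g m z χ) :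
    RCrit3F s ρ₀ n (fun j => a (rv n j)) (fun j => g (rv n j)) m (fun j => z (rv n j)) χ := by
  obtain ⟨h1, i1, n1, h2, h3⟩ := h
  refine ⟨h1, i1, n1, vt_rev hSD hn h1 h2, ?_⟩
  rw [← h3]
  congr 1
  exact sum_rv2 (fun x y => deriv (fun w => s (z x) (z y) w) χ)
    (fun i hi => (op_of_sym hSD h1).2 _ (h2 _ (Nat.mod_lt _ hn)).1 _ (h2 _ hi).1)

lemma r0_rev {ρ₀ c C : ℝ} {s dl : ℂ → ℂ → ℂ → ℂ} (hSD : SD3 ρ₀ c C s dl) {n : ℕ}
    (hn : 0 < n) {a : ℕ → ℤ} {g : ℕ → ℂ} {z : ℕ → ℂ}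
    (h : RCrit0F s ρ₀ n a g z) :
    RCrit0F s ρ₀ n (fun j => a (rv n j)) (fun j => g (rv n j)) (fun j => z (rv n j)) := by
  have m0 : (0 : ℂ) ∈ Rc ρ₀ ρ₀ := by
    constructor
    · simpa using hSD.hρ.1
    · simpa using hSD.hρ.1
  exact vt_rev hSD hn m0 h

/-- sums over the ring in the opposite order -/
lemma val_rev {n : ℕ} (hn : 0 < n) {S : ℂ → ℂ → ℂ} {a : ℕ → ℤ} {z : ℕ → ℂ}
    (hS : ∀ i < n, S (z ((i + 1) % n)) (z i) = S (z i) (z ((i + 1) % n))) :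
    ∑ j ∈ range n, (Complex.I * a (rv n j) * z (rv n j) ^ 2 / (4 * π) +
      Complex.I * z (rv n j) + S (z (rv n j)) (z (rv n ((j + 1) % n)))) =
    ∑ j ∈ range n, (Complex.I * a j * z j ^ 2 / (4 * π) + Complex.I * z j +
      S (z j) (z ((j + 1) % n))) := by
  rw [sum_add_distrib, sum_add_distrib (f := fun j => Complex.I * a j * z j ^ 2 / (4 * π) +
    Complex.I * z j)]
  congr 1
  · exact sum_rv hn fun j => Complex.I * a j * z j ^ 2 / (4 * π) + Complex.I * z j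
  · exact sum_rv2 (fun x y => S (z x) (z y)) hS

lemma rval3_rev {ρ₀ c C : ℝ} {s dl : ℂ → ℂ → ℂ → ℂ} (hSD : SD3 ρ₀ c C s dl) {n : ℕ}
    (hn : 0 < n) {a : ℕ → ℤ} {g : ℕ → ℂ} {m : ℤ} {z : ℕ → ℂ} {χ : ℂ}
    (h : RCrit3F s ρ₀ n a g m z χ) :
    RVal3 s n (fun j => a (rv n j)) m (fun j => z (rv n j)) χ = RVal3 s n a m z χ := by
  unfold RVal3
  congr 1
  exact val_rev hn (S := fun x y => s x y χ)
    (fun i hi => hSD.sym _ (h.2.2.2.1 _ (Nat.mod_lt _ hn)).1 _ (h.2.2.2.1 _ hi).1 χ h.1)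

lemma rval0_rev {ρ₀ c C : ℝ} {s dl : ℂ → ℂ → ℂ → ℂ} (hSD : SD3 ρ₀ c C s dl) {n : ℕ}
    (hn : 0 < n) {a : ℕ → ℤ} {g : ℕ → ℂ} {z : ℕ → ℂ} (h : RCrit0F s ρ₀ n a g z) :
    RVal0 s n (fun j => a (rv n j)) (fun j => z (rv n j)) = RVal0 s n a z := by
  have m0 : (0 : ℂ) ∈ Rc ρ₀ ρ₀ := by
    constructor
    · simpa using hSD.hρ.1
    · simpa using hSD.hρ.1
  exact val_rev hn (S := fun x y => s x y 0)
    (fun i hi => hSD.sym _ (h _ (Nat.mod_lt _ hn)).1 _ (h _ hi).1 0 m0)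

lemma vt_congr {s : ℂ → ℂ → ℂ → ℂ} {ρ : ℝ} {n : ℕ} {a a' : ℕ → ℤ} {g g' : ℕ → ℂ}
    {z z' : ℕ → ℂ} {χ : ℂ} (hn : 0 < n) (ha : ∀ j < n, a j = a' j)
    (hg : ∀ j < n, g j = g' j) (hz : ∀ j < n, z j = z' j)
    (h2 : ∀ j < n, z j ∈ Rc ρ ρ ∧ 0 < (z j).im ∧ ‖z j‖ ≤ 1 / 10 ∧
      Complex.I * a ((j + 1) % n) * z ((j + 1) % n) / (2 * π) + Complex.I + g ((j + 1) % n) +
      deriv (fun w => s (z j) w χ) (z ((j + 1) % n)) +
      deriv (fun w => s w (z (((j + 1) % n + 1) % n)) χ) (z ((j + 1) % n)) = 0) :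
    ∀ j < n, z' j ∈ Rc ρ ρ ∧ 0 < (z' j).im ∧ ‖z' j‖ ≤ 1 / 10 ∧
      Complex.I * a' ((j + 1) % n) * z' ((j + 1) % n) / (2 * π) + Complex.I + g' ((j + 1) % n) +
      deriv (fun w => s (z' j) w χ) (z' ((j + 1) % n)) +
      deriv (fun w => s w (z' (((j + 1) % n + 1) % n)) χ) (z' ((j + 1) % n)) = 0 := by
  intro j hj
  have hj1 : (j + 1) % n < n := Nat.mod_lt _ hn
  have hj2 : ((j + 1) % n + 1) % n < n := Nat.mod_lt _ hn
  rw [← hz j hj, ← hz _ hj1, ← hz _ hj2, ← ha _ hj1, ← hg _ hj1]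
  exact h2 j hj

lemma r3_congr {s : ℂ → ℂ → ℂ → ℂ} {ρ : ℝ} {n : ℕ} {a a' : ℕ → ℤ} {g g' : ℕ → ℂ}
    {m : ℤ} {z z' : ℕ → ℂ} {χ : ℂ} (hn : 0 < n) (ha : ∀ j < n, a j = a' j)
    (hg : ∀ j < n, g j = g' j) (hz : ∀ j < n, z j = z' j) (h : RCrit3F s ρ n a g m z χ) :
    RCrit3F s ρ n a' g' m z' χ := by
  obtain ⟨h1, i1, n1, h2, h3⟩ := h
  refine ⟨h1, i1, n1, vt_congr hn ha hg hz h2, ?_⟩
  rw [← h3]
  congr 1
  refine sum_congr rfl fun j hj => ?_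
  rw [hz j (mem_range.1 hj), hz _ (Nat.mod_lt _ hn)]

lemma r0_congr {s : ℂ → ℂ → ℂ → ℂ} {ρ : ℝ} {n : ℕ} {a a' : ℕ → ℤ} {g g' : ℕ → ℂ}
    {z z' : ℕ → ℂ} (hn : 0 < n) (ha : ∀ j < n, a j = a' j)
    (hg : ∀ j < n, g j = g' j) (hz : ∀ j < n, z j = z' j) (h : RCrit0F s ρ n a g z) :
    RCrit0F s ρ n a' g' z' := by
  unfold RCrit0F at h ⊢
  exact vt_congr (s := s) (ρ := ρ) (χ := 0) hn ha hg hz h

lemma rval0_congr {s : ℂ → ℂ → ℂ → ℂ} {n : ℕ} {a a' : ℕ → ℤ} {z z' : ℕ → ℂ}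
    (hn : 0 < n) (ha : ∀ j < n, a j = a' j) (hz : ∀ j < n, z j = z' j) :
    RVal0 s n a z = RVal0 s n a' z' := by
  unfold RVal0
  refine sum_congr rfl fun j hj => ?_
  rw [hz j (mem_range.1 hj), hz _ (Nat.mod_lt _ hn), ha j (mem_range.1 hj)]

/-! ### Expansions -/

/-- a factor `exp (N S)` -/
lemma exy_shift {a : ℕ → ℂ} {v S : ℂ} {y : ℕ → ℂ} (h : EXY a v y) :
    EXY (fun N => Complex.exp (N * S) * a N) (v + S) y := by
  intro K
  obtain ⟨C, hC⟩ := h K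
  refine ⟨C, hC.mono fun N hN => ?_⟩
  have e : Complex.exp (N * S) * a N / (((Real.sqrt N) ^ 3 : ℝ) * Complex.exp (N * (v + S))) =
      a N / (((Real.sqrt N) ^ 3 : ℝ) * Complex.exp (N * v)) := by
    rw [show (N : ℂ) * (v + S) = N * S + N * v by ring, Complex.exp_add,
      show (((Real.sqrt N) ^ 3 : ℝ) : ℂ) * (Complex.exp (N * S) * Complex.exp (N * v)) =
        Complex.exp (N * S) * ((((Real.sqrt N) ^ 3 : ℝ) : ℂ) * Complex.exp (N * v)) by ring,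
      mul_div_mul_left _ _ (Complex.exp_ne_zero _)]
  rw [e]
  exact hN

lemma exy_congr {a b : ℕ → ℂ} {v : ℂ} {y : ℕ → ℂ} (h : EXY a v y) (e : ∀ᶠ N : ℕ in atTop,
    a N = b N) : EXY b v y := by
  intro K
  obtain ⟨C, hC⟩ := h K
  refine ⟨C, ?_⟩
  filter_upwards [hC, e] with N hN he
  rw [← he]
  exact hN

lemma expand_of (hEP : S_EXPR) (F : Tb → ℂ → ℂ) (ts : List (Tb × Tb)) (m : ℤ) {E E' J : ℕ → ℂ}
    {w : ℂ} {y : ℕ → ℂ} (hE : ∀ N : ℕ, 2 ≤ N → E' N =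
      ((ex F ts).map fun c => c.1 N * c.2 N).prod * E N)
    (hJ : ∀ N : ℕ, 2 ≤ N → J N = pzD N ts m * E N) (hy : y 0 ≠ 0) (h : EXY E' w y) :
    ∃ y' : ℕ → ℂ, y' 0 ≠ 0 ∧ EXY J (w + ∑ j ∈ range (2 * ts.length), F (tj ts j) 0 -
      π * Complex.I / 4 * (wsl ts : ℤ)) y' := by
  set S : ℂ := ∑ j ∈ range (2 * ts.length), F (tj ts j) 0 with hS
  obtain ⟨y', hy', h'⟩ := hEP ts m _ _ y hy (exy_shift (S := S) h)
  refine ⟨y', hy', exy_congr h' ?_⟩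
  filter_upwards [eventually_ge_atTop 2] with N hN
  rw [hJ N hN, hE N hN, ex_prod, ← hS]
  have hN0 : (N : ℂ) ≠ 0 := by
    have : N ≠ 0 := by omega
    exact_mod_cast this
  have h1 : (N : ℂ) ^ (2 * nel ts) * (-1) ^ (N * nel ts) ≠ 0 :=
    mul_ne_zero (pow_ne_zero _ hN0) (pow_ne_zero _ (by norm_num))
  have h2 : Complex.exp (-(N * S)) = (Complex.exp (N * S))⁻¹ := Complex.exp_neg _
  have h3 := Complex.exp_ne_zero (N * S)
  rw [h2]
  field_simp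

/-! ### The final predicates -/

/-- the shapes of the trees in the ring, numbered upwards -/
noncomputable def shp (ts : List (Tb × Tb)) (j : ℕ) : Tb := tj ts (rv (2 * ts.length) j)

/-- the expansion with the complex volume -/
def CxD (ts : List (Tb × Tb)) (m : ℤ) : Prop := ∃ (v : ℂ) (y : ℕ → ℂ),
  CVG (2 * ts.length) (-2) (PC (2 * ts.length) m (shp ts)) v ∧
  y 0 ≠ 0 ∧ EXY (fun N => JD ts m N (vN N)) v y

/-- the same for the ring with its axis -/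
def CxA (ts : List (Tb × Tb)) (m : ℤ) : Prop := ∃ (v : ℂ) (y : ℕ → ℂ),
  CVG (2 * ts.length) 0 (PAx (2 * ts.length) (shp ts)) v ∧
  y 0 ≠ 0 ∧ EXY (fun N => JA ts m N (vN N)) v y

lemma wsl_eq (ts : List (Tb × Tb)) : wsl ts = ∑ j ∈ range (2 * ts.length), (tj ts j).ws :=
  flat_sumG (Tb.vx false 0) ts (fun t => t.ws)

/-- the facts on the trees at the ring vertices -/
structure Tpf (s : ℂ → ℂ → ℂ) (ρ τ : ℝ) (F : Tb → ℂ → ℂ) (ts : List (Tb × Tb)) (z : ℕ → ℂ)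
    (p : ℕ → PB) : Prop where
  sh : ∀ j < 2 * ts.length, (p j).shape = tj ts j
  rz : ∀ j < 2 * ts.length, (p j).rz = z j
  cr : ∀ j < 2 * ts.length, (p j).Crt s ρ τ
  vl : ∀ j < 2 * ts.length, (p j).vl s = F (tj ts j) (z j)
  dv : ∀ j < 2 * ts.length, HasDerivAt (F (tj ts j)) ((p j).gs s) (z j)

/-- the two forms of the critical value -/
lemma val_eq {F : Tb → ℂ → ℂ} {ts : List (Tb × Tb)} {s : ℂ → ℂ → ℂ} {ρ τ : ℝ}
    {z : ℕ → ℂ} {p : ℕ → PB} (hp : Tpf s ρ τ F ts z p) (hn : 0 < 2 * ts.length) (X : ℂ) :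
    X + ∑ j ∈ range (2 * ts.length), (F (tj ts j) (z j) - F (tj ts j) 0) +
      ∑ j ∈ range (2 * ts.length), F (tj ts j) 0 - π * Complex.I / 4 * (wsl ts : ℤ) =
    X + ∑ j ∈ range (2 * ts.length), (p (rv (2 * ts.length) j)).vl s -
      π * Complex.I / 4 * ∑ j ∈ range (2 * ts.length), ((shp ts j).ws : ℂ) := by
  have e1 : ∑ j ∈ range (2 * ts.length), (p (rv (2 * ts.length) j)).vl s =
      ∑ j ∈ range (2 * ts.length), F (tj ts j) (z j) := by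
    rw [sum_rv hn fun j => (p j).vl s]
    exact sum_congr rfl fun j hj => hp.vl j (mem_range.1 hj)
  have e2 : ∑ j ∈ range (2 * ts.length), ((shp ts j).ws : ℂ) = (wsl ts : ℤ) := by
    unfold shp
    rw [sum_rv hn fun j => ((tj ts j).ws : ℂ), wsl_eq]
    push_cast
    rfl
  rw [e1, e2, sum_sub_distrib]
  ring

/-- from the critical value to the final statement, closed ring -/
theorem cxd_of (hEX : S_EXDX) (hSC : S_SCL) (hEP : S_EXPR) {F : Tb → ℂ → ℂ}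
    {ts : List (Tb × Tb)} {m : ℤ} (hts : ts ≠ []) (hNC : NoC ts) {s : ℂ → ℂ → ℂ} {ρ τ : ℝ}
    {z : ℕ → ℂ} {p : ℕ → PB} (hp : Tpf s ρ τ F ts z p) {X : ℂ} {y : ℕ → ℂ}
    (hG : CVG (2 * ts.length) (-2) (PC (2 * ts.length) m (shp ts))
      (X + ∑ j ∈ range (2 * ts.length), (p (rv (2 * ts.length) j)).vl s -
        π * Complex.I / 4 * ∑ j ∈ range (2 * ts.length), ((shp ts j).ws : ℂ)))
    (hy : y 0 ≠ 0) (hE : EXY (fun N => ES N (nxl F ts) m)
      (X + ∑ j ∈ range (2 * ts.length), (F (tj ts j) (z j) - F (tj ts j) 0)) y) : CxD ts m := by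
  have hn : 0 < 2 * ts.length := by
    have := List.length_pos_iff.2 hts
    omega
  obtain ⟨y', hy', hE'⟩ := expand_of hEP F ts m (J := fun N => JD ts m N (vN N))
    (E := fun N => ES N (tvl ts) m)
    (fun N hN => by
      beta_reduce
      rw [nxl_scl, hSC N (tvl ts) (ex F ts) m (by omega) (by simp [tvl, ex])])
    (fun N hN => hEX N ts m hN hts hNC) hy hE
  rw [val_eq hp hn] at hE'
  exact ⟨_, y', hG, hy', hE'⟩

/-- from the critical value to the final statement, the ring with its axis -/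
theorem cxa_of (hEX : S_AXPD) (hSC : S_SCA) (hEP : S_EXPR) {F : Tb → ℂ → ℂ}
    {ts : List (Tb × Tb)} {m : ℤ} (hts : ts ≠ []) (hNC : NoC ts) {s : ℂ → ℂ → ℂ} {ρ τ : ℝ}
    {z : ℕ → ℂ} {p : ℕ → PB} (hp : Tpf s ρ τ F ts z p) {X : ℂ} {y : ℕ → ℂ}
    (hG : CVG (2 * ts.length) 0 (PAx (2 * ts.length) (shp ts))
      (X + ∑ j ∈ range (2 * ts.length), (p (rv (2 * ts.length) j)).vl s -
        π * Complex.I / 4 * ∑ j ∈ range (2 * ts.length), ((shp ts j).ws : ℂ)))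
    (hy : y 0 ≠ 0) (hE : EXY (fun N => N * EA N (nxl F ts) m)
      (X + ∑ j ∈ range (2 * ts.length), (F (tj ts j) (z j) - F (tj ts j) 0)) y) : CxA ts m := by
  have hn : 0 < 2 * ts.length := by
    have := List.length_pos_iff.2 hts
    omega
  obtain ⟨y', hy', hE'⟩ := expand_of hEP F ts m (J := fun N => JA ts m N (vN N))
    (E := fun N => N * EA N (tvl ts) m)
    (fun N hN => by
      beta_reduce
      rw [nxl_scl, hSC N (tvl ts) (ex F ts) m (by omega) (by simp [tvl, ex])]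
      ring)
    (fun N hN => by
      beta_reduce
      rw [hEX N ts m hN hts hNC]
      ring) hy hE
  rw [val_eq hp hn] at hE'
  exact ⟨_, y', hG, hy', hE'⟩

end Pool.Agent.Y481.DX
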