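import Pool.Agent.Y481.DX.Defs
import Pool.Agent.Y481.DR.Geo
import Pool.Agent.Y482.Cv.Ray
import Pool.Agent.Y482.Cv.Cra

/-!
# Rings of trees near `χ = 0`: the critical value is the maximal volume

`geod3 : S_GEOD3`, `geoda : S_GEODA`.
-/

set_option autoImplicit false

namespace Pool.Agent.Y481.DX

open Finset Filter Topology
open Complex (exp log cos sin I)
open Pool.Agent.W711.HT hiding XX
open Pool.Agent.W719.AR (Fl Gap S_VLF)
open Pool.Agent.W709.VC (S_TET)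
open Pool.Agent.W737.AR (Lf ze vol_le)
open Pool.Agent.TH563.UV (Tb PB AB VC)
open Pool.Agent.TH609.UV (hpt lg lcr hs ang EE fe shp el LL)
open Pool.Agent.Y482 (sum_succ_mod)
open Pool.Agent.Y482.Chi (VX HX rho rlam TB TU TX flA flB bv lgr Lc lg_lc vertexX im_I_mul re_I_mul
  der2x den_ne pot3 hvX blk_vol eps)
open Pool.Agent.Y482.Cz (BG)
open Pool.Agent.Y472 (SD3 RVal3)
open Pool.Agent.Y481.DR
open scoped Real

section

variable {ρ₀ c C : ℝ} {s3 dl3 : ℂ → ℂ → ℂ → ℂ}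

lemma hx_edge (hS : SD3 ρ₀ c C s3 dl3) {ψ ψ' χ : ℂ} (m1 : ψ ∈ Rc ρ₀ ρ₀) (i1 : 0 < ψ.im)
    (n1 : ‖ψ‖ ≤ 1 / 10) (m2 : ψ' ∈ Rc ρ₀ ρ₀) (i2 : 0 < ψ'.im) (n2 : ‖ψ'‖ ≤ 1 / 10)
    (mc : χ ∈ Rc ρ₀ ρ₀) (hχ : ‖χ‖ < 1 / 10) : HX ψ ψ' χ (2 * π * dl3 ψ ψ' χ) := by
  have z0 : ∀ w : ℂ, 0 < w.im → w ≠ 0 := by
    intro w hw h0
    rw [h0] at hw
    simp at hw
  refine ⟨z0 _ i1, z0 _ i2, n1, n2, hχ, ?_, ?_⟩
  · have h3 := (hS.dclose _ m1 _ m2 _ mc).1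
    rw [show (2 : ℂ) * π * dl3 ψ ψ' χ - π / 2 = 2 * π * (dl3 ψ ψ' χ - 1 / 4) by ring, norm_mul,
      norm_mul, Complex.norm_ofNat, Complex.norm_real, Real.norm_eq_abs, abs_of_pos Real.pi_pos]
    nlinarith [Real.pi_pos]
  · have h3 := hS.dcos _ m1 _ m2 _ mc
    have h4 : (1 + Complex.cos χ + Complex.cos ψ + Complex.cos ψ') ≠ 0 := by
      have n1' : ‖ψ / 2‖ ≤ 1 / 20 := by rw [norm_div, Complex.norm_ofNat]; linarith
      have n2' : ‖ψ' / 2‖ ≤ 1 / 20 := by rw [norm_div, Complex.norm_ofNat]; linarith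
      have n3' : ‖χ / 2‖ ≤ 1 / 20 := by rw [norm_div, Complex.norm_ofNat]; linarith
      have := (den_ne n1' n2' n3').1
      rwa [show 2 * (χ / 2) = χ by ring, show 2 * (ψ / 2) = ψ by ring,
        show 2 * (ψ' / 2) = ψ' by ring] at this
    rw [h3, div_mul_cancel₀ _ h4]

/-- the vertex equations -/
lemma vert_of (hS : SD3 ρ₀ c C s3 dl3) {n : ℕ} {a : ℕ → ℤ} {g L : ℕ → ℂ} {z : ℕ → ℂ} {χ : ℂ}
    (mc : χ ∈ Rc ρ₀ ρ₀) (hg : ∀ j < n, g j = -(1 / (2 * π)) * L j)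
    (hv : ∀ j < n, z j ∈ Rc ρ₀ ρ₀ ∧ 0 < (z j).im ∧ ‖z j‖ ≤ 1 / 10 ∧
      Complex.I * a ((j + 1) % n) * z ((j + 1) % n) / (2 * π) + Complex.I + g ((j + 1) % n) +
      deriv (fun w => s3 (z j) w χ) (z ((j + 1) % n)) +
      deriv (fun w => s3 w (z (((j + 1) % n + 1) % n)) χ) (z ((j + 1) % n)) = 0)
    {j : ℕ} (hj : j < n) :
    I * (a ((j + 1) % n) * z ((j + 1) % n) + 2 * π) =
      Lg (2 * π * dl3 (z j) (z ((j + 1) % n)) χ) (z ((j + 1) % n)) +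
      Lg (2 * π * dl3 (z ((j + 1) % n)) (z (((j + 1) % n + 1) % n)) χ) (z ((j + 1) % n)) +
      L ((j + 1) % n) := by
  have hpi : (π : ℂ) ≠ 0 := Complex.ofReal_ne_zero.2 Real.pi_ne_zero
  have h1 : (j + 1) % n < n := Nat.mod_lt _ (by omega)
  have h2 : ((j + 1) % n + 1) % n < n := Nat.mod_lt _ (by omega)
  obtain ⟨m1, -, -, e1⟩ := hv j hj
  obtain ⟨m2, -⟩ := hv _ h1
  obtain ⟨m3, -⟩ := hv _ h2
  rw [der2x hS m1 m2 mc, (hS.sder _ m2 _ m3 _ mc).deriv, hg _ h1] at e1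
  have h3 : (2 : ℂ) * π * (Complex.I * a ((j + 1) % n) * z ((j + 1) % n) / (2 * π) + Complex.I +
    -(1 / (2 * π)) * L ((j + 1) % n) +
    -(1 / (2 * π)) * Lg (2 * π * dl3 (z j) (z ((j + 1) % n)) χ) (z ((j + 1) % n)) +
    -(1 / (2 * π)) * Lg (2 * π * dl3 (z ((j + 1) % n)) (z (((j + 1) % n + 1) % n)) χ)
      (z ((j + 1) % n))) = 0 := by rw [e1, mul_zero]
  field_simp at h3
  linear_combination h3

/-- the critical points of the potential -/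
theorem crit_of3 (hS : SD3 ρ₀ c C s3 dl3) {n : ℕ} {a : ℕ → ℤ} {g L : ℕ → ℂ} {m : ℤ} {z : ℕ → ℂ}
    {χ : ℂ} (h : RCrit3F s3 ρ₀ n a g m z χ) (hg : ∀ j < n, g j = -(1 / (2 * π)) * L j)
    (hχ : ‖χ‖ < 1 / 10) :
    CritD n a L m z χ (fun j => 2 * π * dl3 (z j) (z ((j + 1) % n)) χ) := by
  obtain ⟨mc, ic, -, hv, ha⟩ := h
  have hpi : (π : ℂ) ≠ 0 := Complex.ofReal_ne_zero.2 Real.pi_ne_zero
  refine ⟨?_, ?_, ?_⟩
  · intro j hj
    have h1 : (j + 1) % n < n := Nat.mod_lt _ (by omega)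
    obtain ⟨m1, i1, n1, -⟩ := hv j hj
    obtain ⟨m2, i2, n2, -⟩ := hv _ h1
    exact Pool.Agent.Y482.Cv.bg_of_bx (hx_edge hS m1 i1 n1 m2 i2 n2 mc hχ).bx.2
  · intro j hj
    exact vert_of hS mc hg hv hj
  · have e2 : ∀ j ∈ range n, deriv (fun w => s3 (z j) (z ((j + 1) % n)) w) χ =
        -(1 / (2 * π)) * Lc (2 * π * dl3 (z j) (z ((j + 1) % n)) χ) χ := by
      intro j hj
      rw [mem_range] at hj
      have h1 : (j + 1) % n < n := Nat.mod_lt _ (by omega)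
      obtain ⟨m1, -⟩ := hv j hj
      obtain ⟨m2, -⟩ := hv _ h1
      rw [(hS.sderc _ m1 _ m2 _ mc).deriv, lg_lc]
    rw [sum_congr rfl e2, ← mul_sum] at ha
    have h3 : (2 : ℂ) * π * (Complex.I * m * χ / π + Complex.I + -(1 / (2 * π)) *
      ∑ j ∈ range n, Lc (2 * π * dl3 (z j) (z ((j + 1) % n)) χ) χ) = 0 := by rw [ha, mul_zero]
    field_simp at h3
    linear_combination h3

/-- the critical value -/
theorem val_of3 (hS : SD3 ρ₀ c C s3 dl3) {n : ℕ} {a : ℕ → ℤ} {g L : ℕ → ℂ} {m : ℤ} {z : ℕ → ℂ}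
    {χ : ℂ} (hn : 1 ≤ n) (h : RCrit3F s3 ρ₀ n a g m z χ) (hg : ∀ j < n, g j = -(1 / (2 * π)) * L j)
    (hχ : ‖χ‖ < 1 / 10) :
    2 * π * (RVal3 s3 n a m z χ).re + ∑ j ∈ range n, (z j).im * (L j).im = ∑ j ∈ range n,
      bv (2 * π * dl3 (z j) (z ((j + 1) % n)) χ / 2) (z j / 2) (z ((j + 1) % n) / 2) (χ / 2) := by
  have hX := crit_of3 hS h hg hχ
  obtain ⟨mc, ic, nc, hv, ha⟩ := h
  unfold RVal3
  rw [Complex.add_re, Complex.re_sum, mul_add, mul_sum]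
  have e0 : ∀ j ∈ range n, 2 * π * (Complex.I * a j * z j ^ 2 / (4 * π) + Complex.I * z j +
      s3 (z j) (z ((j + 1) % n)) χ).re =
      bv (2 * π * dl3 (z j) (z ((j + 1) % n)) χ / 2) (z j / 2) (z ((j + 1) % n) / 2) (χ / 2) +
      ((z j).im * ((Lg (2 * π * dl3 (z j) (z ((j + 1) % n)) χ) (z j)).im -
        ((a j : ℝ) * (z j).re + 2 * π))) +
      (z ((j + 1) % n)).im *
        (Lg (2 * π * dl3 (z j) (z ((j + 1) % n)) χ) (z ((j + 1) % n))).im +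
      χ.im * (Lc (2 * π * dl3 (z j) (z ((j + 1) % n)) χ) χ).im -
      ((eps (z j / 2) - eps (z j / 2 + χ / 2)) -
        (eps (z ((j + 1) % n) / 2) - eps (z ((j + 1) % n) / 2 + χ / 2))) := by
    intro j hj
    rw [mem_range] at hj
    have h1 : (j + 1) % n < n := Nat.mod_lt _ (by omega)
    obtain ⟨m1, i1, n1, -⟩ := hv j hj
    obtain ⟨m2, i2, n2, -⟩ := hv _ h1
    have t1 := pot3 Pool.Agent.W583.HTP.poth (hS.dclose _ m1 _ m2 _ mc).1 n1 n2 nc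
      (hS.dcrit _ m1 _ m2 _ mc)
    have t2 := Pool.Agent.W571.AR.val_re (a j) (z j)
    have t3 := blk_vol Pool.Agent.Y482.g_VLF (hx_edge hS m1 i1 n1 m2 i2 n2 mc hχ)
    rw [Complex.add_re, mul_add, hS.scrit _ m1 _ m2 _ mc, t1, t2, t3]
    ring
  rw [sum_congr rfl e0, sum_sub_distrib, sum_sub_distrib,
    sum_succ_mod n hn (fun j => eps (z j / 2) - eps (z j / 2 + χ / 2)), sub_self, sub_zero,
    sum_add_distrib, sum_add_distrib, sum_add_distrib,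
    ← sum_succ_mod n hn (fun j => (z j).im * ((Lg (2 * π * dl3 (z j) (z ((j + 1) % n)) χ) (z j)).im -
        ((a j : ℝ) * (z j).re + 2 * π))), ← mul_sum,
    ← sum_succ_mod n hn (fun j => (z j).im * (L j).im)]
  have e1 : ∑ j ∈ range n, ((z ((j + 1) % n)).im *
      ((Lg (2 * π * dl3 (z ((j + 1) % n)) (z (((j + 1) % n + 1) % n)) χ) (z ((j + 1) % n))).im -
        ((a ((j + 1) % n) : ℝ) * (z ((j + 1) % n)).re + 2 * π))) +
      ∑ j ∈ range n, (z ((j + 1) % n)).im *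
        (Lg (2 * π * dl3 (z j) (z ((j + 1) % n)) χ) (z ((j + 1) % n))).im +
      ∑ j ∈ range n, (z ((j + 1) % n)).im * (L ((j + 1) % n)).im = 0 := by
    rw [← sum_add_distrib, ← sum_add_distrib]
    refine sum_eq_zero fun j hj => ?_
    rw [mem_range] at hj
    have e2 := Pool.Agent.W571.AR.im_eq _ _ _ (hX.vert j hj)
    rw [Complex.add_im, Complex.add_im] at e2
    linear_combination (-(z ((j + 1) % n)).im) * e2
  have e3 : 2 * π * (Complex.I * m * χ ^ 2 / (2 * π) + Complex.I * χ).re =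
      -(χ.im * (2 * m * χ.re + 2 * π)) := by
    have := Pool.Agent.W571.AR.val_re (2 * m) χ
    push_cast at this
    rw [show Complex.I * (m : ℂ) * χ ^ 2 / (2 * π) = Complex.I * (2 * m) * χ ^ 2 / (4 * π) by
      ring, this]
  have e4 := hX.axis
  have e5 : (Complex.I * (2 * m * χ + 2 * π)).im = 2 * m * χ.re + 2 * π := by
    simp
  have e6 : ∑ j ∈ range n, (Lc (2 * π * dl3 (z j) (z ((j + 1) % n)) χ) χ).im =
      2 * m * χ.re + 2 * π := by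
    rw [← e5, e4, Complex.im_sum]
  rw [e3, e6]
  linear_combination e1

end

/-- the volume of the critical structure -/
lemma dvol_of {n : ℕ} {p : ℕ → PB} {χ : ℂ} {u : ℕ → ℂ} {dl s : ℂ → ℂ → ℂ} {X : ℂ}
    (hq : ∀ j < n, hpt dl (p j) ∧ Pool.Agent.TH609.UV.lcr dl (p j))
    (h3 : ∀ j < n, 2 * π * ((p j).vl s).re = hs dl (p j) + (p j).rz.im * (lg dl (p j)).im)
    (hval : 2 * π * X.re + ∑ j ∈ range n, (p j).rz.im * (lg dl (p j)).im = ∑ j ∈ range n,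
      bv (u j / 2) ((p j).rz / 2) ((p ((j + 1) % n)).rz / 2) (χ / 2)) :
    dVol n (fun j => ang dl (p j)) (fun j => flA (u j / 2) ((p j).rz / 2) (χ / 2))
      (fun j => flA (u j / 2) (-((p ((j + 1) % n)).rz / 2)) (-(χ / 2)))
      (fun j => flB (u j / 2) ((p j).rz / 2) (χ / 2))
      (fun j => flB (u j / 2) (-((p ((j + 1) % n)).rz / 2)) (-(χ / 2))) =
      2 * π * (X + ∑ j ∈ range n, (p j).vl s).re := by
  unfold dVol
  have e1 : ∑ j ∈ range n, ((flA (u j / 2) ((p j).rz / 2) (χ / 2)).vol +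
      (flA (u j / 2) (-((p ((j + 1) % n)).rz / 2)) (-(χ / 2))).vol +
      (flB (u j / 2) ((p j).rz / 2) (χ / 2)).vol +
      (flB (u j / 2) (-((p ((j + 1) % n)).rz / 2)) (-(χ / 2))).vol) =
      ∑ j ∈ range n, bv (u j / 2) ((p j).rz / 2) ((p ((j + 1) % n)).rz / 2) (χ / 2) := rfl
  have e2 : ∑ j ∈ range n, (ang dl (p j)).vol = ∑ j ∈ range n, hs dl (p j) :=
    sum_congr rfl fun j hj => Pool.Agent.TH609.UV.ang_vol dl _ (hq j (mem_range.1 hj)).1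
  have e3 : ∑ j ∈ range n, 2 * π * ((p j).vl s).re =
      ∑ j ∈ range n, (hs dl (p j) + (p j).rz.im * (lg dl (p j)).im) :=
    sum_congr rfl fun j hj => h3 j (mem_range.1 hj)
  rw [sum_add_distrib, e1, e2, ← hval, Complex.add_re, Complex.re_sum, mul_add, mul_sum, e3,
    sum_add_distrib]
  ring

/-- **GEOD3** -/
theorem geod3 : S_GEOD3 := by
  intro ρ τ κ cc s dl hK ρ₀ c C s3 dl3 hS n m p χ hn hp hχ h
  have hz : ∀ j < n, ‖(p j).rz‖ ≤ 1 / 10 := fun j hj => (h.2.2.2.1 j hj).2.2.1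
  have hi : ∀ j < n, _ := fun j hj => Pool.Agent.TH609.UV.ind Pool.Agent.W583.HTP.poth hK (p j)
    (hp j hj).2.1 (hp j hj).2.2 (hz j hj)
  have hg : ∀ j < n, (p j).gs s = -(1 / (2 * π)) * lg dl (p j) := fun j hj => (hi j hj).1
  have hcr := crit_of3 hS h hg hχ
  have hval := val_of3 hS hn h hg hχ
  have hq : ∀ j < n, hpt dl (p j) ∧ Pool.Agent.TH609.UV.lcr dl (p j) :=
    fun j hj => ⟨(hi j hj).2.1, (hi j hj).2.2.1⟩
  rw [← dvol_of hq (fun j hj => (hi j hj).2.2.2) hval]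
  constructor
  · exact ⟨_, _, _, _, _, fun j hj => Pool.Agent.TH609.UV.ang_shape dl (p j),
      crit_ang hn hq hcr, rfl⟩
  · rintro W ⟨y, f, g, F, G, hs', hy, rfl⟩
    exact crit_max Pool.Agent.W120.VC.tet hn hq hcr hs' hy

end Pool.Agent.Y481.DX
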