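import Pool.Agent.Y481.DX.Geo3
import Pool.Agent.Y482.Cv.UniZ
import Pool.Agent.TH563.CU.ValU

/-!
# Rings of trees: uniqueness of the structure of maximal volume, and the ring with its axis

`dmaxu`, `geoda : S_GEODA`.
-/

set_option autoImplicit false

namespace Pool.Agent.Y481.DX

open Finset Filter Topology
open Complex (exp log cos sin I)
open Pool.Agent.W711.HT hiding XX
open Pool.Agent.W719.AR (Fl Gap S_VLF)
open Pool.Agent.W709.VC (S_TET)
open Pool.Agent.W737.AR (Lf ze vol_le)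
open Pool.Agent.TH563.UV (Tb PB AB VC)
open Pool.Agent.TH563.CU (vol_eq)
open Pool.Agent.TH609.UV (hpt lg lcr hs ang EE fe shp el LL shape_cases hq_symm)
open Pool.Agent.Y482 (sum_succ_mod)
open Pool.Agent.Y482.Chi (VX HX rho rlam TB TU TX flA flB bv lgr Lc lg_lc vertexX im_I_mul re_I_mul
  der2x den_ne pot3 hvX blk_vol eps)
open Pool.Agent.Y482.Cz (BG)
open Pool.Agent.Y482.Cv (cf cg cF cG lin block_leZ)
open Pool.Agent.Y472 (SD3 RVal3)
open Pool.Agent.Y481.DR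
open scoped Real

/-- the case of equality for a tree -/
lemma ang_eq (dl : ℂ → ℂ → ℂ) (p : PB) (hp : hpt dl p) (y : AB) (h : y.shape = p.shape)
    (hy : y.OK) (hv : y.vol = (ang dl p).vol - 2 * LL dl p y) : y = ang dl p := by
  induction p generalizing y with
  | vx b a z =>
    rcases shape_cases _ y h with ⟨b', a', z', h1, rfl⟩ | ⟨t, c, t', c', f, g, h1, -⟩
    · simp only [PB.vx.injEq] at h1
      obtain ⟨rfl, rfl, -⟩ := h1
      rfl
    · simp at h1
  | br t c iht ihc =>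
    rcases shape_cases _ y h with ⟨b', a', z', h1, -⟩ | ⟨t, c, t', c', f, g, h1, rfl, h2, h3⟩
    · simp at h1
    · simp only [PB.br.injEq] at h1
      obtain ⟨rfl, rfl⟩ := h1
      obtain ⟨k1, k2, k3, k4, k5, k6⟩ := hy
      obtain ⟨n1, n2, n3⟩ := hp
      have e1 := Pool.Agent.TH609.UV.vol_LL Pool.Agent.W120.VC.tet dl _ n1 t' h2 k1
      have e2 := Pool.Agent.TH609.UV.vol_LL Pool.Agent.W120.VC.tet dl _ n2 c' h3 k2
      have e3 := vol_le Pool.Agent.W120.VC.tet _ f (shp (hq_symm n3)).1 k3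
      have e4 := vol_le Pool.Agent.W120.VC.tet _ g (shp n3).1 k4
      simp only [LL, AB.vol, ang] at hv
      have q1 := iht n1 t' h2 k1 (by linarith)
      have q2 := ihc n2 c' h3 k2 (by linarith)
      have q3 := vol_eq _ f (shp (hq_symm n3)).1 k3 (by linarith)
      have q4 := vol_eq _ g (shp n3).1 k4 (by linarith)
      rw [q1, q2, q3, q4]
      rfl

/-- a solution of the equations at the circles -/
structure CritV (n : ℕ) (a : ℕ → ℤ) (L : ℕ → ℂ) (z : ℕ → ℂ) (χ : ℂ) (u : ℕ → ℂ) : Prop where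
  bz : ∀ j < n, BG (u j / 2) (z j / 2) (z ((j + 1) % n) / 2) (χ / 2)
  vert : ∀ j < n, I * (a ((j + 1) % n) * z ((j + 1) % n) + 2 * π) =
    Lg (u j) (z ((j + 1) % n)) + Lg (u ((j + 1) % n)) (z ((j + 1) % n)) + L ((j + 1) % n)

lemma _root_.Pool.Agent.Y481.DR.CritD.toV {n : ℕ} {a : ℕ → ℤ} {L : ℕ → ℂ} {m : ℤ} {z : ℕ → ℂ}
    {χ : ℂ} {u : ℕ → ℂ} (h : CritD n a L m z χ u) : CritV n a L z χ u := ⟨h.bz, h.vert⟩

lemma CritV.lgr {n : ℕ} {a : ℕ → ℤ} {L : ℕ → ℂ} {z : ℕ → ℂ} {χ : ℂ} {u : ℕ → ℂ}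
    (h : CritV n a L z χ u) {j : ℕ} (hj : j < n) :
    I * (a ((j + 1) % n) * (2 * (z ((j + 1) % n) / 2)) + 2 * π) =
      Pool.Agent.Y482.Chi.lgr (u j / 2) (z ((j + 1) % n) / 2) +
      Pool.Agent.Y482.Chi.lgr (u ((j + 1) % n) / 2) (z ((j + 1) % n) / 2) + L ((j + 1) % n) := by
  have h1 : (j + 1) % n < n := Nat.mod_lt _ (by omega)
  rw [← (h.bz j hj).lg1.2.1, ← (h.bz _ h1).lg1.1, show 2 * (z ((j + 1) % n) / 2) = z ((j + 1) % n) by
    ring]
  exact h.vert j hj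

section

variable {n : ℕ} {p : ℕ → PB} {χ : ℂ} {u : ℕ → ℂ} {dl : ℂ → ℂ → ℂ}

/-- the conditions at the vertices of the critical structure -/
theorem crit_vert (hp : ∀ j < n, hpt dl (p j))
    (h : CritV n (fun j => (p j).wt) (fun j => lg dl (p j)) (fun j => (p j).rz) χ u) :
    ∀ j < n, VD (ang dl (p ((j + 1) % n))).wt (ang dl (p ((j + 1) % n))).fl
      (cf (fun j => (p j).rz) χ u j) (cg n (fun j => (p j).rz) χ u j)
      (cF (fun j => (p j).rz) χ u j) (cG n (fun j => (p j).rz) χ u j)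
      (cf (fun j => (p j).rz) χ u ((j + 1) % n)) (cg n (fun j => (p j).rz) χ u ((j + 1) % n))
      (cF (fun j => (p j).rz) χ u ((j + 1) % n)) (cG n (fun j => (p j).rz) χ u ((j + 1) % n)) := by
  intro j hj
  have h1 : (j + 1) % n < n := Nat.mod_lt _ (by omega)
  have he := h.lgr hj
  rw [show 2 * ((p ((j + 1) % n)).rz / 2) = (p ((j + 1) % n)).rz by ring] at he
  have := vdD (hp _ h1) (h.bz j hj) (h.bz _ h1) he
  rw [Pool.Agent.TH609.UV.ang_wt]
  exact this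

/-- the sum of the linear terms -/
lemma linD_sum (hn : 1 ≤ n) (hp : ∀ j < n, hpt dl (p j) ∧ Pool.Agent.TH609.UV.lcr dl (p j))
    (h : CritV n (fun j => (p j).wt) (fun j => lg dl (p j)) (fun j => (p j).rz) χ u)
    {y : ℕ → AB} {f g F G : ℕ → Fl} (hs : ∀ j < n, (y j).shape = (p j).shape)
    (ht : ∀ j < n, (y j).OK)
    (hv : ∀ j < n, VD (y ((j + 1) % n)).wt (y ((j + 1) % n)).fl (f j) (g j) (F j) (G j)
      (f ((j + 1) % n)) (g ((j + 1) % n)) (F ((j + 1) % n)) (G ((j + 1) % n))) :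
    ∑ j ∈ range n, (2 * LL dl (p j) (y j) + lin n (fun j => (p j).rz) χ u f g F G j) =
      ∑ j ∈ range n, TX (u j / 2) ((p j).rz / 2) ((p ((j + 1) % n)).rz / 2) (χ / 2)
        (f j) (g j) (F j) (G j) := by
  obtain ⟨z, hz⟩ : ∃ z : ℕ → ℂ, z = fun j => (p j).rz := ⟨_, rfl⟩
  have hzj : ∀ j, (p j).rz = z j := fun j => by rw [hz]
  simp only [hzj] at h ⊢
  unfold lin
  rw [sum_add_distrib, sum_add_distrib, sum_add_distrib,
    ← sum_succ_mod n hn (fun j => 2 * LL dl (p j) (y j)),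
    ← sum_succ_mod n hn (fun j => TB (u j / 2) (z j / 2) (χ / 2)
      ((log (cos (z j / 2 + χ / 2))).re + (log (cos (z j / 2 - χ / 2))).re)
      (f j) (g j) (F j) (G j)), ← sum_add_distrib, ← add_assoc, ← sum_add_distrib]
  have e1 : ∑ j ∈ range n, (2 * LL dl (p ((j + 1) % n)) (y ((j + 1) % n)) +
      (TB (u ((j + 1) % n) / 2) (z ((j + 1) % n) / 2) (χ / 2)
      ((log (cos (z ((j + 1) % n) / 2 + χ / 2))).re +
        (log (cos (z ((j + 1) % n) / 2 - χ / 2))).re)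
      (f ((j + 1) % n)) (g ((j + 1) % n)) (F ((j + 1) % n)) (G ((j + 1) % n)) +
      TU (u j / 2) (z ((j + 1) % n) / 2) (χ / 2) ((log (cos (z ((j + 1) % n) / 2 + χ / 2))).re +
        (log (cos (z ((j + 1) % n) / 2 - χ / 2))).re) (f j) (g j) (F j) (G j))) = 0 := by
    refine sum_eq_zero fun j hj => ?_
    rw [mem_range] at hj
    have hk : (j + 1) % n < n := Nat.mod_lt _ (by omega)
    have hv := hv j hj
    have hLL := Pool.Agent.TH609.UV.LL_eq dl (p ((j + 1) % n)) (hp _ hk).1 (hp _ hk).2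
      (y ((j + 1) % n)) (hs _ hk) (ht _ hk)
    have hwt := (Pool.Agent.TH609.UV.wt_eq _ _ (hs _ hk)).1
    have hlg := Pool.Agent.TH609.UV.el_lg dl (p ((j + 1) % n)) (y ((j + 1) % n)) (hs _ hk)
    rw [← Pool.Agent.TH609.UV.el_map dl _ _ (hs _ hk), hwt] at hv
    have he := h.lgr hj
    try beta_reduce at he
    rw [← hlg, hzj] at he
    have e3 : 2 * (z ((j + 1) % n) / 2) = z ((j + 1) % n) := by ring
    have key := vertexD hv (Pool.Agent.TH609.UV.el_pos dl _ _ (hs _ hk) (ht _ hk))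
      (a := u j / 2) (a' := u ((j + 1) % n) / 2) (b := z ((j + 1) % n) / 2) (c := χ / 2)
      (by rw [e3] at he ⊢; exact he)
      ((log (cos (z ((j + 1) % n) / 2 + χ / 2))).re +
        (log (cos (z ((j + 1) % n) / 2 - χ / 2))).re)
    rw [hLL, hzj]
    rw [e3] at key
    linarith
  have e1' : ∑ j ∈ range n, 2 * LL dl (p ((j + 1) % n)) (y ((j + 1) % n)) +
      ∑ j ∈ range n, (TB (u ((j + 1) % n) / 2) (z ((j + 1) % n) / 2) (χ / 2)
      ((log (cos (z ((j + 1) % n) / 2 + χ / 2))).re +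
        (log (cos (z ((j + 1) % n) / 2 - χ / 2))).re)
      (f ((j + 1) % n)) (g ((j + 1) % n)) (F ((j + 1) % n)) (G ((j + 1) % n)) +
      TU (u j / 2) (z ((j + 1) % n) / 2) (χ / 2) ((log (cos (z ((j + 1) % n) / 2 + χ / 2))).re +
        (log (cos (z ((j + 1) % n) / 2 - χ / 2))).re) (f j) (g j) (F j) (G j)) = 0 := by
    rw [← sum_add_distrib]
    exact e1
  rw [← sum_add_distrib] at e1'
  rw [e1', zero_add]

/-- the terms of the axis cancel -/
lemma tx_sum (hn : 1 ≤ n) {m : ℤ} {a : ℕ → ℤ} {L z : ℕ → ℂ} (h : CritD n a L m z χ u)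
    {f g F G : ℕ → Fl}
    (hR : ∀ j < n, rlam (f j) (g j) (F j) (G j) = rlam (f 0) (g 0) (F 0) (G 0))
    (hf : ∑ j ∈ range n, rho (f j) (g j) (F j) (G j) =
      -(4 * π + 2 * m * rlam (f 0) (g 0) (F 0) (G 0))) :
    ∑ j ∈ range n, TX (u j / 2) (z j / 2) (z ((j + 1) % n) / 2) (χ / 2)
      (f j) (g j) (F j) (G j) = 0 := by
  have e2 : ∀ j ∈ range n, TX (u j / 2) (z j / 2) (z ((j + 1) % n) / 2) (χ / 2) (f j) (g j) (F j)
      (G j) = (Pool.Agent.Y482.Chi.lcr (u j / 2) (χ / 2)).re *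
        ((rlam (f 0) (g 0) (F 0) (G 0) - 4 * (χ / 2).re) / 2) +
      (-(χ / 2).im) * (rho (f j) (g j) (F j) (G j)) +
      (-2 * (χ / 2).im) * (Pool.Agent.Y482.Chi.lcr (u j / 2) (χ / 2)).im +
      ((χ / 2).im * (2 * (log (cos (z j / 2 + χ / 2))).im) -
      (χ / 2).im * (2 * (log (cos (z ((j + 1) % n) / 2 + χ / 2))).im)) := by
    intro j hj
    rw [mem_range] at hj
    have := hR j hj
    rw [← this]
    unfold TX rlam rho
    ring
  rw [sum_congr rfl e2, sum_add_distrib, sum_add_distrib, sum_add_distrib, sum_sub_distrib,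
    sum_succ_mod n hn (fun j => (χ / 2).im * (2 * (log (cos (z j / 2 + χ / 2))).im)), sub_self,
    add_zero, ← sum_mul, ← mul_sum, ← mul_sum, hf]
  have he := congrArg Complex.im h.lcr
  have hf := congrArg Complex.re h.lcr
  rw [Complex.im_sum, im_I_mul] at he
  rw [Complex.re_sum, re_I_mul] at hf
  have g1 : (2 * (m : ℂ) * (2 * (χ / 2)) + 2 * π).re = 2 * m * (2 * (χ / 2).re) + 2 * π := by
    simp
  have g2 : (2 * (m : ℂ) * (2 * (χ / 2)) + 2 * π).im = 2 * m * (2 * (χ / 2).im) := by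
    simp
  rw [g1] at he
  rw [g2] at hf
  rw [← he, ← hf]
  ring

/-- the rotation along the longitude of the axis is constant -/
lemma rlamD_const {y : ℕ → AB} {f g F G : ℕ → Fl}
    (hpos : ∀ j < n, (f j).Pos ∧ (g j).Pos ∧ (F j).Pos ∧ (G j).Pos)
    (hdiag : ∀ j < n, (f j).b + (f j).c' + ((g j).b + (g j).c') = 2 * π ∧
      (F j).b + (F j).c' + ((G j).b + (G j).c') = 2 * π)
    (hv : ∀ j < n, VD (y ((j + 1) % n)).wt (y ((j + 1) % n)).fl (f j) (g j) (F j) (G j)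
      (f ((j + 1) % n)) (g ((j + 1) % n)) (F ((j + 1) % n)) (G ((j + 1) % n))) :
    ∀ j < n, rlam (f j) (g j) (F j) (G j) = rlam (f 0) (g 0) (F 0) (G 0) := by
  intro j
  induction j with
  | zero => intro _; rfl
  | succ k ih =>
    intro hk
    have hk' : k < n := by omega
    have e : (k + 1) % n = k + 1 := Nat.mod_eq_of_lt hk
    have hv := hv k hk'
    rw [e] at hv
    obtain ⟨p1, p2, p3, p4⟩ := hpos _ hk
    obtain ⟨d1, d2⟩ := hdiag _ hk
    rw [hv.rlam_step p1 p2 p3 p4 d1 d2, ih hk']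

/-- the structure of a critical configuration is the only one of maximal volume -/
theorem dmaxu (hp : ∀ j < n, hpt dl (p j) ∧ Pool.Agent.TH609.UV.lcr dl (p j))
    (hB : ∀ j < n, BG (u j / 2) ((p j).rz / 2) ((p ((j + 1) % n)).rz / 2) (χ / 2))
    {y : ℕ → AB} {f g F G : ℕ → Fl} (hs : ∀ j < n, (y j).shape = (p j).shape)
    (ht : ∀ j < n, (y j).OK)
    (hpos : ∀ j < n, (f j).Pos ∧ (g j).Pos ∧ (F j).Pos ∧ (G j).Pos)
    (hdiag : ∀ j < n, (f j).b + (f j).c' + ((g j).b + (g j).c') = 2 * π ∧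
      (F j).b + (F j).c' + ((G j).b + (G j).c') = 2 * π)
    (hl : ∑ j ∈ range n, (2 * LL dl (p j) (y j) + lin n (fun j => (p j).rz) χ u f g F G j) = 0) :
    dVol n y f g F G ≤ dVol n (fun j => ang dl (p j)) (cf (fun j => (p j).rz) χ u)
      (cg n (fun j => (p j).rz) χ u) (cF (fun j => (p j).rz) χ u)
      (cG n (fun j => (p j).rz) χ u) ∧
    (dVol n (fun j => ang dl (p j)) (cf (fun j => (p j).rz) χ u)
      (cg n (fun j => (p j).rz) χ u) (cF (fun j => (p j).rz) χ u)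
      (cG n (fun j => (p j).rz) χ u) ≤ dVol n y f g F G → ∀ j < n, y j = ang dl (p j) ∧
        f j = cf (fun j => (p j).rz) χ u j ∧ g j = cg n (fun j => (p j).rz) χ u j ∧
        F j = cF (fun j => (p j).rz) χ u j ∧ G j = cG n (fun j => (p j).rz) χ u j) := by
  obtain ⟨z, hz⟩ : ∃ z : ℕ → ℂ, z = fun j => (p j).rz := ⟨_, rfl⟩
  have hzj : ∀ j, (p j).rz = z j := fun j => by rw [hz]
  rw [← hz] at hl ⊢
  simp only [hzj] at hB
  have h1 : ∀ j < n, 0 ≤ (cf z χ u j).vol + (cg n z χ u j).vol + (cF z χ u j).vol +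
      (cG n z χ u j).vol - lin n z χ u f g F G j -
      ((f j).vol + (g j).vol + (F j).vol + (G j).vol) :=
    fun j hj => (block_leZ (hB j hj) (hpos j hj) (hdiag j hj)).1
  have h2 : ∀ j < n, 0 ≤ (ang dl (p j)).vol - 2 * LL dl (p j) (y j) - (y j).vol := by
    intro j hj
    have := Pool.Agent.TH609.UV.vol_LL Pool.Agent.W120.VC.tet dl (p j) (hp j hj).1 (y j) (hs j hj)
      (ht j hj)
    linarith
  have hnn : ∀ j ∈ range n, 0 ≤ ((cf z χ u j).vol + (cg n z χ u j).vol + (cF z χ u j).vol +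
      (cG n z χ u j).vol - lin n z χ u f g F G j -
      ((f j).vol + (g j).vol + (F j).vol + (G j).vol)) +
      ((ang dl (p j)).vol - 2 * LL dl (p j) (y j) - (y j).vol) := by
    intro j hj
    rw [mem_range] at hj
    exact add_nonneg (h1 j hj) (h2 j hj)
  have e : ∑ j ∈ range n, (((cf z χ u j).vol + (cg n z χ u j).vol + (cF z χ u j).vol +
      (cG n z χ u j).vol - lin n z χ u f g F G j -
      ((f j).vol + (g j).vol + (F j).vol + (G j).vol)) +
      ((ang dl (p j)).vol - 2 * LL dl (p j) (y j) - (y j).vol)) =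
      dVol n (fun j => ang dl (p j)) (cf z χ u) (cg n z χ u) (cF z χ u) (cG n z χ u) -
        dVol n y f g F G := by
    have hE : ∀ X : ℝ, X + ∑ j ∈ range n, (2 * LL dl (p j) (y j) + lin n z χ u f g F G j) = X := by
      intro X
      rw [hl, add_zero]
    rw [← hE (∑ j ∈ range n, _)]
    unfold dVol
    rw [← sum_add_distrib, ← sum_sub_distrib]
    refine sum_congr rfl fun j _ => ?_
    ring
  have h0 := sum_nonneg hnn
  refine ⟨by linarith, fun h j hj => ?_⟩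
  have h3 := (sum_eq_zero_iff_of_nonneg hnn).1 (by linarith) j (mem_range.2 hj)
  have h4 := h1 j hj
  have h5 := h2 j hj
  refine ⟨ang_eq dl (p j) (hp j hj).1 (y j) (hs j hj) (ht j hj) (by linarith), ?_⟩
  exact (block_leZ (hB j hj) (hpos j hj) (hdiag j hj)).2 (by linarith)

end

/-- the critical value at `χ = 0` -/
theorem val_of0 {ρ₀ c C : ℝ} {s3 dl3 : ℂ → ℂ → ℂ → ℂ} (hS : SD3 ρ₀ c C s3 dl3) {n : ℕ} {a : ℕ → ℤ}
    {g L : ℕ → ℂ} {z : ℕ → ℂ} (hn : 1 ≤ n) (h : RCrit0F s3 ρ₀ n a g z)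
    (hg : ∀ j < n, g j = -(1 / (2 * π)) * L j) (m0 : (0 : ℂ) ∈ Rc ρ₀ ρ₀) :
    2 * π * (Pool.Agent.Y482.Ph.RVal0 s3 n a z).re + ∑ j ∈ range n, (z j).im * (L j).im =
      ∑ j ∈ range n,
      bv (2 * π * dl3 (z j) (z ((j + 1) % n)) 0 / 2) (z j / 2) (z ((j + 1) % n) / 2) (0 / 2) := by
  unfold Pool.Agent.Y482.Ph.RVal0
  rw [Complex.re_sum, mul_sum]
  have e0 : ∀ j ∈ range n, 2 * π * (Complex.I * a j * z j ^ 2 / (4 * π) + Complex.I * z j +
      s3 (z j) (z ((j + 1) % n)) 0).re =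
      bv (2 * π * dl3 (z j) (z ((j + 1) % n)) 0 / 2) (z j / 2) (z ((j + 1) % n) / 2) (0 / 2) +
      ((z j).im * ((Lg (2 * π * dl3 (z j) (z ((j + 1) % n)) 0) (z j)).im -
        ((a j : ℝ) * (z j).re + 2 * π))) +
      (z ((j + 1) % n)).im *
        (Lg (2 * π * dl3 (z j) (z ((j + 1) % n)) 0) (z ((j + 1) % n))).im -
      ((eps (z j / 2) - eps (z j / 2 + 0 / 2)) -
        (eps (z ((j + 1) % n) / 2) - eps (z ((j + 1) % n) / 2 + 0 / 2))) := by
    intro j hj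
    rw [mem_range] at hj
    have h1 : (j + 1) % n < n := Nat.mod_lt _ (by omega)
    obtain ⟨m1, i1, n1, -⟩ := h j hj
    obtain ⟨m2, i2, n2, -⟩ := h _ h1
    have t1 := pot3 Pool.Agent.W583.HTP.poth (hS.dclose _ m1 _ m2 _ m0).1 n1 n2 (by simp)
      (hS.dcrit _ m1 _ m2 _ m0)
    have t2 := Pool.Agent.W571.AR.val_re (a j) (z j)
    have t3 := blk_vol Pool.Agent.Y482.g_VLF (hx_edge hS m1 i1 n1 m2 i2 n2 m0 (by simp))
    rw [Complex.zero_im, zero_mul, add_zero] at t1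
    rw [Complex.add_re, mul_add, hS.scrit _ m1 _ m2 _ m0, t1, t2, t3]
    ring
  rw [sum_congr rfl e0, sum_sub_distrib, sum_sub_distrib,
    sum_succ_mod n hn (fun j => eps (z j / 2) - eps (z j / 2 + 0 / 2)), sub_self, sub_zero,
    sum_add_distrib, sum_add_distrib,
    ← sum_succ_mod n hn (fun j => (z j).im * ((Lg (2 * π * dl3 (z j) (z ((j + 1) % n)) 0) (z j)).im -
        ((a j : ℝ) * (z j).re + 2 * π))),
    ← sum_succ_mod n hn (fun j => (z j).im * (L j).im)]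
  have e1 : ∑ j ∈ range n, ((z ((j + 1) % n)).im *
      ((Lg (2 * π * dl3 (z ((j + 1) % n)) (z (((j + 1) % n + 1) % n)) 0) (z ((j + 1) % n))).im -
        ((a ((j + 1) % n) : ℝ) * (z ((j + 1) % n)).re + 2 * π))) +
      ∑ j ∈ range n, (z ((j + 1) % n)).im *
        (Lg (2 * π * dl3 (z j) (z ((j + 1) % n)) 0) (z ((j + 1) % n))).im +
      ∑ j ∈ range n, (z ((j + 1) % n)).im * (L ((j + 1) % n)).im = 0 := by
    rw [← sum_add_distrib, ← sum_add_distrib]
    refine sum_eq_zero fun j hj => ?_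
    rw [mem_range] at hj
    have e2 := Pool.Agent.W571.AR.im_eq _ _ _ (vert_of hS m0 hg h hj)
    rw [Complex.add_im, Complex.add_im] at e2
    linear_combination (-(z ((j + 1) % n)).im) * e2
  linear_combination e1

section

variable {n : ℕ} {p : ℕ → PB} {u : ℕ → ℂ} {dl : ℂ → ℂ → ℂ}

/-- the critical structure of the ring with its axis -/
theorem crit_angA (hn : 1 ≤ n) (hp : ∀ j < n, hpt dl (p j) ∧ Pool.Agent.TH609.UV.lcr dl (p j))
    (h : CritV n (fun j => (p j).wt) (fun j => lg dl (p j)) (fun j => (p j).rz) 0 u) :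
    DAngA n (fun j => ang dl (p j)) (cf (fun j => (p j).rz) 0 u)
      (cg n (fun j => (p j).rz) 0 u) (cF (fun j => (p j).rz) 0 u)
      (cG n (fun j => (p j).rz) 0 u) := by
  refine ⟨fun j hj => (h.bz j hj).pos, ?_, ?_, crit_vert (fun j hj => (hp j hj).1) h, ?_, ?_⟩
  · intro j hj
    have k := Pool.Agent.Y482.Cz.blkAng (h.bz j hj)
    exact ⟨k.dA, k.dB⟩
  · intro j hj
    exact Pool.Agent.TH609.UV.ang_isok dl _ (hp j hj).1 (hp j hj).2
  · have q := Pool.Agent.Y482.Cz.blkAng (h.bz 0 (by omega))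
    have q1 := q.TA
    have q2 := q.CAt
    have z0 : (0 / 2 : ℂ).re = 0 := by simp
    rw [z0] at q1 q2
    unfold rlam cf cg cF cG
    linarith
  · obtain ⟨z, hz⟩ : ∃ z : ℕ → ℂ, z = fun j => (p j).rz := ⟨_, rfl⟩
    rw [← hz] at h ⊢
    have hr : ∀ j ∈ range n, rho (cf z 0 u j) (cg n z 0 u j) (cF z 0 u j) (cG n z 0 u j) =
        (2 * (log (cos (z j / 2))).im - 2 * (log (cos (z ((j + 1) % n) / 2))).im) := by
      intro j hj
      rw [mem_range] at hj
      obtain ⟨-, -, c3⟩ := Pool.Agent.Y482.Cz.blkCr (h.bz j hj)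
      rw [zero_div, Pool.Agent.Y482.Cv.lcr0] at c3
      simp only [add_zero, Complex.zero_im, mul_zero, zero_add] at c3
      unfold rho cf cg cF cG
      simp only [zero_div]
      linarith
    rw [sum_congr rfl hr, sum_sub_distrib,
      sum_succ_mod n hn (fun j => 2 * (log (cos (z j / 2))).im), sub_self]

/-- uniqueness, the ring with its axis -/
theorem uniA (hn : 1 ≤ n) (hp : ∀ j < n, hpt dl (p j) ∧ Pool.Agent.TH609.UV.lcr dl (p j))
    (h : CritV n (fun j => (p j).wt) (fun j => lg dl (p j)) (fun j => (p j).rz) 0 u)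
    {y : ℕ → AB} {f g F G : ℕ → Fl} (hs : ∀ j < n, (y j).shape = (p j).shape)
    (hy : DAngA n y f g F G) :
    dVol n y f g F G ≤ dVol n (fun j => ang dl (p j)) (cf (fun j => (p j).rz) 0 u)
      (cg n (fun j => (p j).rz) 0 u) (cF (fun j => (p j).rz) 0 u)
      (cG n (fun j => (p j).rz) 0 u) ∧
    (dVol n (fun j => ang dl (p j)) (cf (fun j => (p j).rz) 0 u)
      (cg n (fun j => (p j).rz) 0 u) (cF (fun j => (p j).rz) 0 u)
      (cG n (fun j => (p j).rz) 0 u) ≤ dVol n y f g F G → ∀ j < n, y j = ang dl (p j) ∧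
        f j = cf (fun j => (p j).rz) 0 u j ∧ g j = cg n (fun j => (p j).rz) 0 u j ∧
        F j = cF (fun j => (p j).rz) 0 u j ∧ G j = cG n (fun j => (p j).rz) 0 u j) := by
  refine dmaxu hp h.bz hs hy.tree hy.pos hy.diag ?_
  rw [linD_sum hn hp h hs hy.tree hy.vert]
  refine sum_eq_zero fun j hj => ?_
  unfold TX
  rw [zero_div, Pool.Agent.Y482.Cv.lcr0]
  simp

/-- uniqueness, closed ring -/
theorem uniD {m : ℤ} {χ : ℂ} (hn : 1 ≤ n)
    (hp : ∀ j < n, hpt dl (p j) ∧ Pool.Agent.TH609.UV.lcr dl (p j))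
    (h : CritD n (fun j => (p j).wt) (fun j => lg dl (p j)) m (fun j => (p j).rz) χ u)
    {y : ℕ → AB} {f g F G : ℕ → Fl} (hs : ∀ j < n, (y j).shape = (p j).shape)
    (hy : DAng n m y f g F G) :
    dVol n y f g F G ≤ dVol n (fun j => ang dl (p j)) (cf (fun j => (p j).rz) χ u)
      (cg n (fun j => (p j).rz) χ u) (cF (fun j => (p j).rz) χ u)
      (cG n (fun j => (p j).rz) χ u) ∧
    (dVol n (fun j => ang dl (p j)) (cf (fun j => (p j).rz) χ u)
      (cg n (fun j => (p j).rz) χ u) (cF (fun j => (p j).rz) χ u)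
      (cG n (fun j => (p j).rz) χ u) ≤ dVol n y f g F G → ∀ j < n, y j = ang dl (p j) ∧
        f j = cf (fun j => (p j).rz) χ u j ∧ g j = cg n (fun j => (p j).rz) χ u j ∧
        F j = cF (fun j => (p j).rz) χ u j ∧ G j = cG n (fun j => (p j).rz) χ u j) := by
  refine dmaxu hp h.bz hs hy.tree hy.pos hy.diag ?_
  rw [linD_sum hn hp h.toV hs hy.tree hy.vert]
  exact tx_sum hn h (rlamD_const hy.pos hy.diag hy.vert) hy.fill

end

/-- the facts at a critical configuration of the ring with its axis -/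
lemma axis_facts {ρ τ κ cc : ℝ} {s dl : ℂ → ℂ → ℂ} (hK : KD ρ τ κ cc s dl) {ρ₀ c C : ℝ}
    {s3 dl3 : ℂ → ℂ → ℂ → ℂ} (hS : SD3 ρ₀ c C s3 dl3) {n : ℕ} {p : ℕ → PB} (hn : 1 ≤ n)
    (hp : ∀ j < n, (p j).bl = false ∧ (p j).Crt s ρ τ ∧ (p j).rz ∈ Rc ρ τ)
    (h : RCrit0F s3 ρ₀ n (fun j => (p j).wt) (fun j => (p j).gs s) (fun j => (p j).rz))
    {u : ℕ → ℂ} (hu : u = fun j => 2 * π * dl3 (p j).rz (p ((j + 1) % n)).rz 0) :
    (∀ j < n, hpt dl (p j) ∧ Pool.Agent.TH609.UV.lcr dl (p j)) ∧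
    CritV n (fun j => (p j).wt) (fun j => lg dl (p j)) (fun j => (p j).rz) 0 u ∧
    dVol n (fun j => ang dl (p j)) (cf (fun j => (p j).rz) 0 u)
      (cg n (fun j => (p j).rz) 0 u) (cF (fun j => (p j).rz) 0 u)
      (cG n (fun j => (p j).rz) 0 u) =
      2 * π * (Pool.Agent.Y482.Ph.RVal0 s3 n (fun j => (p j).wt) (fun j => (p j).rz) +
        ∑ j ∈ range n, (p j).vl s).re := by
  have m0 : (0 : ℂ) ∈ Rc ρ₀ ρ₀ := by
    constructor
    · simpa using hS.hρ.1
    · simpa using hS.hρ.1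
  have hz : ∀ j < n, ‖(p j).rz‖ ≤ 1 / 10 := fun j hj => (h j hj).2.2.1
  have hi : ∀ j < n, _ := fun j hj => Pool.Agent.TH609.UV.ind Pool.Agent.W583.HTP.poth hK (p j)
    (hp j hj).2.1 (hp j hj).2.2 (hz j hj)
  have hg : ∀ j < n, (p j).gs s = -(1 / (2 * π)) * lg dl (p j) := fun j hj => (hi j hj).1
  have hq : ∀ j < n, hpt dl (p j) ∧ Pool.Agent.TH609.UV.lcr dl (p j) :=
    fun j hj => ⟨(hi j hj).2.1, (hi j hj).2.2.1⟩
  have hv : CritV n (fun j => (p j).wt) (fun j => lg dl (p j)) (fun j => (p j).rz) 0 u := by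
    refine ⟨?_, ?_⟩
    · intro j hj
      have h1 : (j + 1) % n < n := Nat.mod_lt _ (by omega)
      obtain ⟨m1, i1, n1, -⟩ := h j hj
      obtain ⟨m2, i2, n2, -⟩ := h _ h1
      rw [hu]
      exact Pool.Agent.Y482.Cv.bg_of_bx (hx_edge hS m1 i1 n1 m2 i2 n2 m0 (by simp)).bx.2
    · intro j hj
      rw [hu]
      exact vert_of hS (z := fun j => (p j).rz) (a := fun j => (p j).wt) m0 hg h hj
  refine ⟨hq, hv, ?_⟩
  have hval := val_of0 hS hn h hg m0
  exact dvol_of (u := u) (χ := 0) hq (fun j hj => (hi j hj).2.2.2) (by rw [hu]; exact hval)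

/-- **GEODA** -/
theorem geoda : S_GEODA := by
  intro ρ τ κ cc s dl hK ρ₀ c C s3 dl3 hS n p hn hp h
  obtain ⟨hq, hv, hd⟩ := axis_facts hK hS hn hp h rfl
  rw [← hd]
  constructor
  · exact ⟨_, _, _, _, _, fun j hj => Pool.Agent.TH609.UV.ang_shape dl (p j),
      crit_angA hn hq hv, rfl⟩
  · rintro W ⟨y, f, g, F, G, hs', hy, rfl⟩
    exact (uniA hn hq hv hs' hy).1

end Pool.Agent.Y481.DX
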