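import Pool.Agent.Y481.DX.Final
import Pool.Agent.W460.AX.RAT

/-!
# Rings of trees: the growth rate, absolute constants
-/

set_option autoImplicit false

namespace Pool.Agent.Y481.DX

open Finset Filter Topology
open Pool.Agent.W711.HT hiding XX
open Pool.Agent.Y481.DR
open Pool.Agent.TH563.UV (Tb AB)
open Pool.Agent.W719.AR (Fl)
open Pool.Agent.W719.AX (EXY)
open Pool.Agent.Y482.DX (CVG PC PAx)
open scoped Real

/-- the growth rate from the expansion -/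
lemma growth_exy {a : ℕ → ℂ} {v : ℂ} {y : ℕ → ℂ} (hy : y 0 ≠ 0) (h : EXY a v y) :
    Tendsto (fun N : ℕ => 2 * π * (Real.log ‖a N‖ / N)) atTop (𝓝 (2 * π * v.re)) := by
  obtain ⟨_, _, _, r4, _⟩ := Pool.Agent.W460.AX.rat _ _ y hy h
  exact r4

/-- **the growth rate**, absolute constants -/
theorem findv : ∃ K : ℝ, 0 < K ∧ ∀ D : ℕ, ∃ M : ℝ, ∀ (ts : List (Tb × Tb)) (m : ℕ), ts ≠ [] →
    ¬ (ts.length = 1 ∧ m = 0) → NoC ts →
    (∀ p ∈ ts, p.1.Below K ∧ p.2.Below K ∧ p.1.nc ≤ D ∧ p.2.nc ≤ D ∧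
      M ≤ |(p.1.wt : ℝ)| ∧ M ≤ |(p.2.wt : ℝ)|) →
    ∃ V : ℝ, IsGreatest {W : ℝ | ∃ (y : ℕ → AB) (f g F G : ℕ → Fl),
        (∀ j < 2 * ts.length, (y j).shape = tj ts ((2 * ts.length - j) % (2 * ts.length))) ∧
          DAng (2 * ts.length) m y f g F G ∧ dVol (2 * ts.length) y f g F G = W} V ∧
      Tendsto (fun N : ℕ => 2 * π * (Real.log ‖JD ts m N (vN N)‖ / N)) atTop (𝓝 V) := by
  obtain ⟨K, hK, h⟩ := findx
  refine ⟨K, hK, fun D => ?_⟩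
  obtain ⟨M, hM⟩ := h D
  refine ⟨M, fun ts m hts hkm hn hp => ?_⟩
  obtain ⟨v, y, hC, hy, hE⟩ := hM ts m hts hkm ⟨hn, hp⟩
  refine ⟨2 * π * v.re, ?_, growth_exy hy hE⟩
  have h1 := hC.1
  convert h1 using 2
  ext W
  constructor
  · rintro ⟨y, f, g, F, G, h1, h2, h3⟩
    exact ⟨y, f, g, F, G, ⟨h1, h2⟩, h3⟩
  · rintro ⟨y, f, g, F, G, ⟨h1, h2⟩, h3⟩
    exact ⟨y, f, g, F, G, h1, h2, h3⟩

end Pool.Agent.Y481.DX
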